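import Pool.Agent.H34.RP.Defs
import Pool.Agent.H34.LS.Win

/-!
# Drift and the Poisson boundary: definitions

`CWalk`: finitely supported probability with additive heights of mean zero (not necessarily
symmetric). `Rch`: elements reached by the walk with all heights in `[-w, w]`. `drift`: mean height.
-/

namespace Pool.Agent.H34.DC

open Pool.Agent.H34.LS Pool.Agent.H34.RP

universe u

variable {G : Type u} [Group G]

/-- `P` is a finitely supported probability, `hh` is an additive height function, bounded by `R` on the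
support of `P`, of mean zero. -/
structure CWalk (P : G →₀ ℝ) (hh : G → ℤ) (R : ℕ) : Prop where
  nonneg : ∀ g, 0 ≤ P g
  total : tot P = 1
  hom : ∀ x y, hh (x * y) = hh x + hh y
  bdd : ∀ g, P g ≠ 0 → |hh g| ≤ (R : ℤ)
  mean : P.sum (fun g a => a * (hh g : ℝ)) = 0

/-- elements represented by words in the support of `P` whose prefixes have heights in `[-w, w]`. -/
def Rch (P : G →₀ ℝ) (hh : G → ℤ) (w : ℕ) : Set G :=
  {x | ∃ l : List G, (∀ g ∈ l, P g ≠ 0) ∧ l.prod = x ∧ ∀ k : ℕ, |hh (l.take k).prod| ≤ (w : ℤ)}

/-- the mean height of `mu`. -/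
noncomputable def drift (f : G →* Multiplicative ℤ) (mu : G → ℝ) : ℝ :=
  ∑ᶠ g, mu g * ((Multiplicative.toAdd (f g) : ℤ) : ℝ)

end Pool.Agent.H34.DC
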