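import Pool.Agent.H34.DC.N1
import Pool.Agent.H34.DC.Defs

/-!
N2: the invariant of the upper half space. `f t = ofAdd 1`, `x t^(-f x) ∈ ker f`. `A = {s * t^(-f s) : s ∈ E}` (`E` the support). For `0 ≤ f x`, `0 ≤ f (x s)`, `s ∈ E`:
`x s t^(-f (x s)) = (x t^(-h)) * (t^h (s t^(-f s)) t^(-h))` with `h = f x ≥ 0`, and the second factor is in `up t A`. So membership of `x t^(-f x)` in `up t A` does not change.
-/

namespace Pool.Agent.H34.DC

open Pool.Agent.H34.LS

universe u

variable {G : Type u} [Group G]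

/-- height of `x`. -/
def ht (f : G →* Multiplicative ℤ) (x : G) : ℤ := Multiplicative.toAdd (f x)

/-- `x t^(-f x)`. -/
def kp (f : G →* Multiplicative ℤ) (t : G) (x : G) : G := x * t ^ (-(ht f x))

/-- `x` is in the upper half space, in the component of the powers of `t`. -/
def InUp (f : G →* Multiplicative ℤ) (t : G) (E : Set G) (x : G) : Prop :=
  0 ≤ ht f x ∧ kp f t x ∈ up t (kp f t '' E)

private theorem N2_ht_mul (f : G →* Multiplicative ℤ) (x y : G) : ht f (x * y) = ht f x + ht f y := by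
  unfold ht
  rw [map_mul, toAdd_mul]

private theorem N2_ht_zpow {f : G →* Multiplicative ℤ} {t : G} (ht1 : f t = Multiplicative.ofAdd 1) (n : ℤ) :
    ht f (t ^ n) = n := by
  unfold ht
  rw [map_zpow, ht1, toAdd_zpow, toAdd_ofAdd, smul_eq_mul, mul_one]

private theorem N2_ht_pow {f : G →* Multiplicative ℤ} {t : G} (ht1 : f t = Multiplicative.ofAdd 1) (n : ℕ) :
    ht f (t ^ n) = n := by
  rw [← zpow_natCast, N2_ht_zpow ht1]

theorem kp_mem_ker {f : G →* Multiplicative ℤ} {t : G} (ht1 : f t = Multiplicative.ofAdd 1) (x : G) :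
    kp f t x ∈ f.ker := by
  rw [MonoidHom.mem_ker]
  have h1 : ht f (kp f t x) = 0 := by
    unfold kp
    rw [N2_ht_mul, N2_ht_zpow ht1, add_neg_cancel]
  exact Multiplicative.toAdd.injective h1

theorem inUp_step {f : G →* Multiplicative ℤ} {t : G} (ht1 : f t = Multiplicative.ofAdd 1)
    {E : Set G} {x s : G} (hs : s ∈ E) (hx : 0 ≤ ht f x) (hxs : 0 ≤ ht f (x * s)) :
    InUp f t E (x * s) ↔ InUp f t E x := by
  have h1 : kp f t (x * s) ∈ up t (kp f t '' E) ↔ kp f t x ∈ up t (kp f t '' E) := by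
    obtain ⟨j, hj⟩ := Int.eq_ofNat_of_zero_le hx
    have h2 : kp f t (x * s) = kp f t x * (t ^ j * kp f t s * (t ^ j)⁻¹) := by
      unfold kp
      rw [N2_ht_mul, hj, neg_add_rev, zpow_add, zpow_neg t (j : ℤ), zpow_natCast]
      simp only [mul_assoc, inv_mul_cancel_left]
    rw [h2]
    refine Subgroup.mul_mem_cancel_right _ (Subgroup.subset_closure ⟨j, kp f t s, ⟨s, hs, rfl⟩, rfl⟩)
  unfold InUp
  rw [h1]
  exact ⟨fun h => ⟨hx, h.2⟩, fun h => ⟨hxs, h.2⟩⟩

/-- powers of `t` are in, `k t^M` is out for `k ∉ up`. -/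
theorem inUp_pow {f : G →* Multiplicative ℤ} {t : G} (ht1 : f t = Multiplicative.ofAdd 1)
    {E : Set G} (M : ℕ) : InUp f t E (t ^ M) := by
  refine ⟨?_, ?_⟩
  · rw [N2_ht_pow ht1]
    exact Int.natCast_nonneg M
  · unfold kp
    rw [N2_ht_pow ht1, zpow_neg, zpow_natCast, mul_inv_cancel]
    exact Subgroup.one_mem _

theorem not_inUp {f : G →* Multiplicative ℤ} {t : G} (ht1 : f t = Multiplicative.ofAdd 1)
    {E : Set G} {k : G} (hk : k ∈ f.ker) (hk2 : k ∉ up t (kp f t '' E)) (M : ℕ) :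
    ¬ InUp f t E (k * t ^ M) := by
  rintro ⟨-, h2⟩
  apply hk2
  have h3 : ht f k = 0 := by
    unfold ht
    rw [MonoidHom.mem_ker.1 hk]
    rfl
  have h4 : kp f t (k * t ^ M) = k := by
    unfold kp
    rw [N2_ht_mul, h3, N2_ht_pow ht1, zero_add, zpow_neg, zpow_natCast, mul_inv_cancel_right]
  rwa [h4] at h2

end Pool.Agent.H34.DC
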