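import Pool.Agent.H34.DC.X3

/-!
All parts of the hand-in DriftDichotomy.
-/

namespace Pool.Agent.H34.DC

open Pool.Agent.H34.LS Pool.Agent.H34.RP

universe u

/-- `f : G → ℤ` is surjective with infinite, locally finite kernel. -/
structure Onto {G : Type u} [Group G] (f : G →* Multiplicative ℤ) : Prop where
  surj : Function.Surjective f
  locfin : ∀ s : Set G, s.Finite → s ⊆ (f.ker : Set G) →
    ((Subgroup.closure s : Subgroup G) : Set G).Finite
  infinite : (f.ker : Set G).Infinite

/-- the windows of `G` with respect to `f` and `S` are finite and small: `S` generates, the sets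
`window f S n` are finite and `∑_j exp (- c log |window f S (2^j)| / 4^j)` diverges for all `c > 0`. -/
structure SmallWindows {G : Type u} [Group G] (f : G →* Multiplicative ℤ) (S : Set G) : Prop where
  gen : Subgroup.closure S = ⊤
  finite : ∀ n, (window f S n).Finite
  diverges : Diverges (fun j => Real.log ((window f S (2 ^ j)).ncard : ℝ) / 4 ^ j)

theorem main :
    (∀ (G : Type u) [Group G] (f : G →* Multiplicative ℤ) (S : Set G), SmallWindows f S →
      ∀ mu : G → ℝ, IsFSProb mu → Generating mu → drift f mu = 0 → TrivialBoundary mu) ∧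
    (∀ (G : Type u) [Group G] (f : G →* Multiplicative ℤ), Onto f →
      ∀ mu : G → ℝ, IsFSProb mu → drift f mu ≠ 0 → ¬ TrivialBoundary mu) ∧
    ∃ (G : Type) (_ : Group G) (f : G →* Multiplicative ℤ), Group.FG G ∧ LocFinByZ G ∧
      LacunaryHyperbolic G ∧ Function.Surjective f ∧
      (∃ mu : G → ℝ, IsFSProb mu ∧ Generating mu ∧ Symm mu ∧ drift f mu = 0) ∧
      (∃ mu : G → ℝ, IsFSProb mu ∧ Generating mu ∧ drift f mu ≠ 0) ∧
      ∀ mu : G → ℝ, IsFSProb mu → Generating mu → (TrivialBoundary mu ↔ drift f mu = 0) := by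
  refine ⟨?_, ?_, example_full⟩
  · intro G _ f S hS mu h hg h0
    exact centered_criterion f S hS.gen hS.finite hS.diverges h hg h0
  · intro G _ f hf mu h hd
    exact drift_nontrivial f hf.surj hf.locfin hf.infinite h hd

end Pool.Agent.H34.DC
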