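import Pool.Agent.H34.DC.Defs
import Pool.Agent.H34.LS.V13

/-!
J2a: `rch_sub_a`: the elements reached by the walk with all heights in `[-w, w]` lie in a window, as in
V13 (`qk_support`).
-/

namespace Pool.Agent.H34.DC

open Pool.Agent.H34.LS Pool.Agent.H34.RP

universe u

variable {G : Type u} [Group G]

private theorem j2a_word (f : G →* Multiplicative ℤ) {S : Set G} (hS : Subgroup.closure S = ⊤)
    (g : G) : ∃ (l : List G) (b : ℕ), (∀ x ∈ l, x ∈ S ∨ x⁻¹ ∈ S) ∧ l.prod = g ∧
      ∀ k : ℕ, |Multiplicative.toAdd (f ((l.take k).prod))| ≤ (b : ℤ) := by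
  have hg : g ∈ Subgroup.closure S := by rw [hS]; exact Subgroup.mem_top g
  have hg' : g ∈ Submonoid.closure (S ∪ S⁻¹) := by
    rw [← Subgroup.closure_toSubmonoid]; exact hg
  obtain ⟨l, h1', h2⟩ := Submonoid.exists_list_of_mem_closure hg'
  have h1 : ∀ x ∈ l, x ∈ S ∨ x⁻¹ ∈ S := by
    intro x hx
    rcases h1' x hx with h | h
    · exact Or.inl h
    · exact Or.inr (Set.mem_inv.1 h)
  refine ⟨l, (Finset.range (l.length + 1)).sup
    (fun k => (Multiplicative.toAdd (f ((l.take k).prod))).natAbs), h1, h2, ?_⟩
  intro k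
  have key : ∀ j : ℕ, j ≤ l.length → |Multiplicative.toAdd (f ((l.take j).prod))| ≤
      (((Finset.range (l.length + 1)).sup
        (fun k => (Multiplicative.toAdd (f ((l.take k).prod))).natAbs) : ℕ) : ℤ) := by
    intro j hj
    have h3 := Finset.le_sup (f := fun k => (Multiplicative.toAdd (f ((l.take k).prod))).natAbs)
      (Finset.mem_range.2 (Nat.lt_succ_of_le hj))
    rw [Int.abs_eq_natAbs]
    exact_mod_cast h3
  by_cases hk : k ≤ l.length
  · exact key k hk
  · have h4 : l.take k = l.take l.length := by
      rw [List.take_of_length_le (by omega), List.take_length]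
    rw [h4]
    exact key _ le_rfl

theorem rch_sub_a (f : G →* Multiplicative ℤ) {S : Set G} (hS : Subgroup.closure S = ⊤)
    (P : G →₀ ℝ) :
    ∃ B : ℕ, ∀ w : ℕ, Rch P (fun g => Multiplicative.toAdd (f g)) w ⊆ window f S (w + B) := by
  choose l b hl1 hl2 hl3 using j2a_word f hS
  refine ⟨P.support.sup b, ?_⟩
  set B := P.support.sup b with hB
  have claim : ∀ (w : ℕ) (L : List G) (s : ℤ), (∀ g ∈ L, P g ≠ 0) →
      (∀ k : ℕ, |s + Multiplicative.toAdd (f ((L.take k).prod))| ≤ (w : ℤ)) →
        ∃ l' : List G, (∀ y ∈ l', y ∈ S ∨ y⁻¹ ∈ S) ∧ l'.prod = L.prod ∧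
          ∀ k : ℕ, |s + Multiplicative.toAdd (f ((l'.take k).prod))| ≤ (w : ℤ) + B := by
    intro w L
    induction L with
    | nil =>
      intro s _ hk
      refine ⟨[], by simp, rfl, ?_⟩
      intro k
      have h1 := hk k
      have h2 : (0 : ℤ) ≤ B := Int.natCast_nonneg _
      linarith
    | cons g L ih =>
      intro s hL hk
      have hs : |s| ≤ (w : ℤ) := by
        have h1 := hk 0
        rwa [List.take_zero, List.prod_nil, map_one, toAdd_one, add_zero] at h1
      obtain ⟨l', hl1', hl2', hl3'⟩ := ih (s + Multiplicative.toAdd (f g))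
        (fun g' hg' => hL g' (List.mem_cons_of_mem g hg')) (fun j => by
          have h1 := hk (j + 1)
          rwa [List.take_succ_cons, List.prod_cons, map_mul, toAdd_mul, ← add_assoc] at h1)
      refine ⟨l g ++ l', ?_, ?_, ?_⟩
      · intro y hy
        rcases List.mem_append.1 hy with hy | hy
        · exact hl1 g y hy
        · exact hl1' y hy
      · rw [List.prod_append, hl2, hl2', List.prod_cons]
      · intro k
        have hg : g ∈ P.support := Finsupp.mem_support_iff.2 (hL g List.mem_cons_self)
        have hbB : (b g : ℤ) ≤ B := by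
          have := Finset.le_sup (f := b) hg
          exact_mod_cast this
        rw [List.take_append, List.prod_append]
        by_cases hk' : k ≤ (l g).length
        · have h0 : k - (l g).length = 0 := by omega
          rw [h0, List.take_zero, List.prod_nil, mul_one]
          have h3 := hl3 g k
          have h4 := abs_add_le s (Multiplicative.toAdd (f (((l g).take k).prod)))
          linarith
        · have h3 : (l g).take k = l g := List.take_of_length_le (by omega)
          rw [h3, hl2, map_mul, toAdd_mul, ← add_assoc]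
          exact hl3' _
  intro w x hx
  obtain ⟨L, h1, h2, h3⟩ := hx
  obtain ⟨l', g1, g2, g3⟩ := claim w L 0 h1 (fun k => by
    rw [zero_add]
    exact h3 k)
  refine ⟨l', g1, g2.trans h2, fun k => ?_⟩
  have h4 := g3 k
  rw [zero_add] at h4
  push_cast
  exact h4

end Pool.Agent.H34.DC
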