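import Pool.Agent.H34.DC.Defs
import Pool.Agent.H34.DC.J2a
import Pool.Agent.H34.RP.D0
import Pool.Agent.H34.LS.V6
import Pool.Agent.H34.LS.V13

/-!
J2: `rch_sub`: as in V13 (`qk_support`): for each `g` in the support of `P` fix a word in `S` and inverses with product `g`; let `B` bound the moduli of the heights of the
prefixes of these words. A word in the support of `P` with prefix heights in `[-w, w]` expands to a word in `S` and inverses with prefix heights in `[-(w+B), w+B]`
(induction on the word from the right, or on the length). `su_rch`: induction on `n`. `n = 0`: `su = 1 ≥ psi`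
(`psi_le_one`). Step: `x ∈ T`, `su P T (n+1) x = sum_g P g * su P T n (x * g)`; for `g` in the support of `P`: if `|hh (x g)| ≤ w` then `x * g ∈ Rch` (append `g`), and the
induction hypothesis applies; otherwise `psi w (hh (x g)) = 0 ≤ su`. So the sum is `≥ l^n * sum_g P g * psi w (hh x + hh g) ≥ l^(n+1) * psi w (hh x)`. `one_mem`: empty word
(`hh 1 = 0` from `hom`).
-/

namespace Pool.Agent.H34.DC

open Pool.Agent.H34.LS Pool.Agent.H34.RP

universe u

variable {G : Type u} [Group G] {P : G →₀ ℝ} {hh : G → ℤ} {R : ℕ}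

theorem rch_sub (f : G →* Multiplicative ℤ) {S : Set G} (hS : Subgroup.closure S = ⊤)
    (P : G →₀ ℝ) :
    ∃ B : ℕ, ∀ w : ℕ, Rch P (fun g => Multiplicative.toAdd (f g)) w ⊆ window f S (w + B) :=
  rch_sub_a f hS P

private theorem j2_one (h : CWalk P hh R) : hh 1 = 0 := by
  have h1 := h.hom 1 1
  rw [mul_one] at h1
  omega

theorem one_mem_rch (h : CWalk P hh R) (w : ℕ) : (1 : G) ∈ Rch P hh w := by
  refine ⟨[], fun g hg => absurd hg List.not_mem_nil, List.prod_nil, fun k => ?_⟩
  rw [List.take_nil, List.prod_nil, j2_one h, abs_zero]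
  exact Int.natCast_nonneg w

private theorem j2_append {w : ℕ} {x g : G} (hx : x ∈ Rch P hh w) (hg : P g ≠ 0)
    (hw : |hh (x * g)| ≤ (w : ℤ)) : x * g ∈ Rch P hh w := by
  obtain ⟨l, h1, h2, h3⟩ := hx
  refine ⟨l ++ [g], ?_, ?_, fun k => ?_⟩
  · intro a ha
    rcases List.mem_append.1 ha with h | h
    · exact h1 a h
    · rw [List.mem_singleton.1 h]
      exact hg
  · rw [List.prod_append, h2, List.prod_singleton]
  · by_cases hk : k ≤ l.length
    · rw [List.take_append_of_le_length hk]
      exact h3 k
    · have hk' : (l ++ [g]).length ≤ k := by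
        rw [List.length_append, List.length_singleton]
        omega
      rw [List.take_of_length_le hk', List.prod_append, h2, List.prod_singleton]
      exact hw

theorem su_rch (h : CWalk P hh R) {w : ℕ} (hw : 1 ≤ w) {l : ℝ} (hl : 0 ≤ l)
    (hsub : ∀ x : ℤ, l * psi w x ≤ P.sum (fun g a => a * psi w (x + hh g))) {T : Finset G}
    (hT : (T : Set G) = Rch P hh w) (n : ℕ) {x : G} (hx : x ∈ T) :
    l ^ n * psi w (hh x) ≤ su P T n x := by
  induction n generalizing x with
  | zero =>
    rw [su, if_pos hx, pow_zero, one_mul]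
    exact psi_le_one w _
  | succ n ih =>
    rw [su, if_pos hx]
    have h1 : l ^ (n + 1) * psi w (hh x) ≤
        l ^ n * P.sum (fun g a => a * psi w (hh x + hh g)) := by
      rw [pow_succ, mul_assoc]
      exact mul_le_mul_of_nonneg_left (hsub (hh x)) (pow_nonneg hl n)
    refine le_trans h1 ?_
    rw [Finsupp.sum, Finset.mul_sum, Finsupp.sum]
    refine Finset.sum_le_sum fun g hg => ?_
    have hg' : P g ≠ 0 := Finsupp.mem_support_iff.1 hg
    have h2 : l ^ n * (P g * psi w (hh x + hh g)) = P g * (l ^ n * psi w (hh x + hh g)) := by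
      ring
    rw [h2]
    refine mul_le_mul_of_nonneg_left ?_ (h.nonneg g)
    rw [← h.hom x g]
    by_cases hc : |hh (x * g)| ≤ (w : ℤ)
    · have h3 : x * g ∈ T := by
        have hx' : x ∈ Rch P hh w := by
          rw [← hT]
          exact hx
        have h4 := j2_append hx' hg' hc
        rw [← hT] at h4
        exact h4
      exact ih h3
    · rw [psi_zero hw (not_le.1 hc).le, mul_zero]
      exact su_nonneg h.nonneg T n _

end Pool.Agent.H34.DC
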