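import Mathlib

/-!
N1: algebra. `K` a normal subgroup of `G` in which finitely generated subgroups are finite, `t : G`, `A ⊆ K` finite. `cj t A a b`: subgroup generated by the `t^j k t^(-j)`, `k ∈ A`,
`a ≤ j ≤ b` (natural numbers); `cj t A` for `j ≥ 0`: `up t A`. Claim: if `up t A = K` then `K` is finite. Proof: conjugation by `t⁻¹` gives a subgroup containing `up t A = K` and contained in `K`
(normality), so `t K t⁻¹ = K` gives: `K` is generated by the `t^j k t^(-j)`, `j ≥ 1` (conjugate of `up t A = K` by `t`). Each `k ∈ A` lies in the subgroup generated by the `t^j k' t^(-j)` with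
`1 ≤ j ≤ b` for some `b` (directed union; `A` finite, one `b ≥ 1` for all). Let `F = ⟨t^j A t^(-j) : 0 ≤ j ≤ b - 1⟩` (finite), `F1 = ⟨0 ≤ j ≤ b⟩ ⊇ F`, and `F1 = ⟨1 ≤ j ≤ b⟩ = t F t⁻¹` because
`A ⊆ ⟨1 ≤ j ≤ b⟩`. So `F ≤ t F t⁻¹`, both finite of the same cardinality, so `t F t⁻¹ = F`; `A ⊆ F` (`j = 0`), so all `t^j A t^(-j) ⊆ F`, `K = up t A ≤ F` is finite.
-/

namespace Pool.Agent.H34.DC

universe u

variable {G : Type u} [Group G]

/-- subgroup generated by the conjugates `t^j k t^(-j)`, `k ∈ A`, `j ≥ 0`. -/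
def up (t : G) (A : Set G) : Subgroup G :=
  Subgroup.closure {x | ∃ j : ℕ, ∃ k ∈ A, x = t ^ j * k * (t ^ j)⁻¹}

/-- the generators with exponents in `[a, b)`. -/
private def N1_gen (t : G) (A : Set G) (a b : ℕ) : Set G :=
  {x | ∃ j : ℕ, a ≤ j ∧ j < b ∧ ∃ k ∈ A, x = t ^ j * k * (t ^ j)⁻¹}

private theorem N1_mono {t : G} {A : Set G} {a b c d : ℕ} (h1 : c ≤ a) (h2 : b ≤ d) :
    N1_gen t A a b ⊆ N1_gen t A c d := by
  rintro x ⟨j, hj1, hj2, k, hk, rfl⟩
  exact ⟨j, h1.trans hj1, lt_of_lt_of_le hj2 h2, k, hk, rfl⟩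

private theorem N1_fin {t : G} {A : Set G} (hA : A.Finite) (a b : ℕ) :
    (N1_gen t A a b).Finite := by
  have h : N1_gen t A a b ⊆
      (fun p : ℕ × G => t ^ p.1 * p.2 * (t ^ p.1)⁻¹) '' (Set.Iio b ×ˢ A) := by
    rintro x ⟨j, hj1, hj2, k, hk, rfl⟩
    exact ⟨(j, k), ⟨hj2, hk⟩, rfl⟩
  exact (((Set.finite_Iio b).prod hA).image _).subset h

private theorem N1_conj {t x : G} {K : Subgroup G} [hn : K.Normal] (j : ℕ) (hx : x ∈ K) :
    t ^ j * x * (t ^ j)⁻¹ ∈ K := hn.conj_mem x hx (t ^ j)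

private theorem N1_step (t k : G) (j : ℕ) :
    t * (t ^ j * k * (t ^ j)⁻¹) * t⁻¹ = t ^ (j + 1) * k * (t ^ (j + 1))⁻¹ := by
  rw [pow_succ']
  group

theorem finite_of_up {K : Subgroup G} [K.Normal]
    (hK : ∀ s : Set G, s.Finite → s ⊆ (K : Set G) → ((Subgroup.closure s : Subgroup G) : Set G).Finite)
    {t : G} {A : Set G} (hA : A.Finite) (hAK : A ⊆ (K : Set G)) (h : up t A = K) :
    (K : Set G).Finite := by
  -- every element of `K` is a word in the conjugates with positive exponents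
  have h1 : K ≤ ⨆ b : ℕ, Subgroup.closure (N1_gen t A 1 b) := by
    intro x hx
    have hx' : t⁻¹ * x * t ∈ K := by
      have := (inferInstance : K.Normal).conj_mem x hx t⁻¹
      rwa [inv_inv] at this
    rw [← h] at hx'
    have key : ∀ y ∈ up t A, t * y * t⁻¹ ∈ ⨆ b : ℕ, Subgroup.closure (N1_gen t A 1 b) := by
      intro y hy
      unfold up at hy
      induction hy using Subgroup.closure_induction with
      | mem y hy =>
        obtain ⟨j, k, hk, rfl⟩ := hy
        rw [N1_step]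
        refine (le_iSup (fun b : ℕ => Subgroup.closure (N1_gen t A 1 b)) (j + 2)) ?_
        exact Subgroup.subset_closure ⟨j + 1, by omega, by omega, k, hk, rfl⟩
      | one =>
        rw [mul_one, mul_inv_cancel]
        exact Subgroup.one_mem _
      | mul y z _ _ h1 h2 =>
        have e : t * (y * z) * t⁻¹ = (t * y * t⁻¹) * (t * z * t⁻¹) := by group
        rw [e]
        exact Subgroup.mul_mem _ h1 h2
      | inv y _ h1 =>
        have e : t * y⁻¹ * t⁻¹ = (t * y * t⁻¹)⁻¹ := by group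
        rw [e]
        exact Subgroup.inv_mem _ h1
    have e := key _ hx'
    have e2 : t * (t⁻¹ * x * t) * t⁻¹ = x := by group
    rwa [e2] at e
  have hmono : Monotone fun b : ℕ => Subgroup.closure (N1_gen t A 1 b) := fun b c hbc =>
    Subgroup.closure_mono (N1_mono le_rfl hbc)
  have h2 : ∀ k ∈ A, ∃ b : ℕ, k ∈ Subgroup.closure (N1_gen t A 1 b) := fun k hk =>
    (Subgroup.mem_iSup_of_directed hmono.directed_le).1 (h1 (hAK hk))
  choose! B hB using h2
  obtain ⟨b0, hb0⟩ := (hA.image B).bddAbove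
  -- one exponent for all elements of `A`
  set b : ℕ := b0 + 1 with hb
  have h3 : ∀ k ∈ A, k ∈ Subgroup.closure (N1_gen t A 1 (b + 1)) := fun k hk =>
    hmono (show B k ≤ b + 1 by
      have := hb0 (Set.mem_image_of_mem B hk)
      omega) (hB k hk)
  set F : Subgroup G := Subgroup.closure (N1_gen t A 0 b) with hF
  have hFfin : (F : Set G).Finite := by
    refine hK _ (N1_fin hA 0 b) ?_
    rintro x ⟨j, -, -, k, hk, rfl⟩
    exact N1_conj j (hAK hk)
  have h4 : F ≤ F.map (MulAut.conj t).toMonoidHom := by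
    have h5 : Subgroup.closure (N1_gen t A 1 (b + 1)) ≤ F.map (MulAut.conj t).toMonoidHom := by
      rw [Subgroup.closure_le]
      rintro x ⟨j, hj1, hj2, k, hk, rfl⟩
      obtain ⟨i, rfl⟩ : ∃ i, j = i + 1 := ⟨j - 1, by omega⟩
      refine ⟨t ^ i * k * (t ^ i)⁻¹, Subgroup.subset_closure ⟨i, by omega, by omega, k, hk, rfl⟩, ?_⟩
      show t * (t ^ i * k * (t ^ i)⁻¹) * t⁻¹ = _
      exact N1_step t k i
    rw [hF, Subgroup.closure_le]
    rintro x ⟨j, -, hj2, k, hk, rfl⟩
    rcases Nat.eq_zero_or_pos j with rfl | hj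
    · have e : t ^ 0 * k * (t ^ 0)⁻¹ = k := by simp
      rw [e]
      exact h5 (h3 k hk)
    · exact h5 (Subgroup.subset_closure ⟨j, hj, by omega, k, hk, rfl⟩)
  have h6 : (F : Set G) = (F.map (MulAut.conj t).toMonoidHom : Subgroup G) := by
    have hi : ((F.map (MulAut.conj t).toMonoidHom : Subgroup G) : Set G) =
        (fun x => t * x * t⁻¹) '' (F : Set G) := rfl
    have hc : ((fun x => t * x * t⁻¹) '' (F : Set G)).ncard = (F : Set G).ncard := by
      refine Set.ncard_image_of_injective _ fun x y hxy => ?_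
      exact mul_left_cancel (mul_right_cancel hxy)
    refine Set.eq_of_subset_of_ncard_le h4 ?_ ?_
    · rw [hi, hc]
    · rw [hi]
      exact hFfin.image _
  have h7 : ∀ x ∈ F, t * x * t⁻¹ ∈ F := by
    intro x hx
    have : t * x * t⁻¹ ∈ ((F.map (MulAut.conj t).toMonoidHom : Subgroup G) : Set G) := ⟨x, hx, rfl⟩
    rw [← h6] at this
    exact this
  have h8 : ∀ k ∈ A, ∀ j : ℕ, t ^ j * k * (t ^ j)⁻¹ ∈ F := by
    intro k hk j
    induction j with
    | zero => exact Subgroup.subset_closure ⟨0, le_rfl, by omega, k, hk, rfl⟩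
    | succ j ih =>
      rw [← N1_step]
      exact h7 _ ih
  refine hFfin.subset ?_
  rw [← h]
  have h9 : up t A ≤ F := by
    unfold up
    rw [Subgroup.closure_le]
    rintro x ⟨j, k, hk, rfl⟩
    exact h8 k hk j
  exact h9

end Pool.Agent.H34.DC
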