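import Pool.Agent.H34.DC.Defs
import Pool.Agent.H34.LS.V6
import Pool.Agent.H34.LS.V1

/-!
J1: `psi w` (V6: `cos (π x / (2 w))` for `|x| ≤ w`, `0` otherwise) is a subsolution for a centered walk. `θ = π / (2 w)`. For `|x| ≥ w`: `psi w x = 0` (`psi_zero`)
and the right side is nonnegative. For `|x| < w` (`w ≥ R`, so `|x + hh g| ≤ 3 w`): `psi w (x + hh g) ≥ cos (θ (x + hh g))` (`cos_le_psi`), so the right side is at least
`cos (θ x) * c - sin (θ x) * d`, `c = sum P g cos (θ hh g) ≥ 1 - θ^2 R^2 / 2`, `d = sum P g sin (θ hh g) = sum P g (sin (θ hh g) - θ hh g)` (mean zero),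
`|d| ≤ θ^3 R^3` (`|sin y - y| ≤ |y|^3`, for instance from `Real.sin_bound` for `|y| ≤ 1`, i.e. `w` large; or `Real.sin_gt_sub_cube`), and
`cos (θ x) ≥ cos (θ (w - 1)) = sin θ ≥ θ / 2` (`Real.mul_le_sin` or `Real.two_div_pi_mul_le..`; `θ ≤ π / 2`). So
`|d| ≤ 2 θ^2 R^3 cos (θ x)` and the right side is `≥ (1 - θ^2 (R^2 / 2 + 2 R^3)) cos (θ x)`; `C = (π^2 / 4) (R^2 / 2 + 2 R^3) + 1`, `w0` with
`C / w^2 ≤ 1/2`, `w ≥ R`, `θ R ≤ 1`.
-/

namespace Pool.Agent.H34.DC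

open Pool.Agent.H34.LS Pool.Agent.H34.RP

universe u

variable {G : Type u} [Group G] {P : G →₀ ℝ} {hh : G → ℤ} {R : ℕ}

private theorem j1_sin {b : ℝ} (hb : |b| ≤ 1) : |Real.sin b - b| ≤ |b| ^ 3 := by
  have h1 := Real.sin_bound hb
  have h0 := abs_nonneg b
  have h2 : |b| ^ 5 ≤ |b| ^ 3 := pow_le_pow_of_le_one h0 hb (by norm_num)
  have h3 : |Real.sin b - b| ≤ |Real.sin b - (b - b ^ 3 / 6)| + |b ^ 3 / 6| := by
    have h4 : Real.sin b - b = (Real.sin b - (b - b ^ 3 / 6)) + -(b ^ 3 / 6) := by ring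
    calc |Real.sin b - b| = |(Real.sin b - (b - b ^ 3 / 6)) + -(b ^ 3 / 6)| := by rw [← h4]
      _ ≤ |Real.sin b - (b - b ^ 3 / 6)| + |-(b ^ 3 / 6)| := abs_add_le _ _
      _ = _ := by rw [abs_neg]
  have h5 : |b ^ 3 / 6| = |b| ^ 3 / 6 := by
    rw [abs_div, abs_pow, abs_of_pos (by norm_num : (0 : ℝ) < 6)]
  rw [h5] at h3
  have h6 : 0 ≤ |b| ^ 3 := by positivity
  linarith

/-- pointwise lower bound. -/
private theorem j1_point {c s b T : ℝ} (u : ℝ) (hc : c = Real.cos u) (hs : s = Real.sin u) (hc0 : 0 ≤ c)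
    (hb : |b| ≤ T) (hT : T ≤ 1) : c * (1 - T ^ 2 / 2) - s * b - T ^ 3 ≤ Real.cos (u + b) := by
  have h1 : |b| ≤ 1 := hb.trans hT
  have h0 := abs_nonneg b
  have h2 := j1_sin h1
  have h3 := Real.one_sub_sq_div_two_le_cos (x := b)
  have h4 : |b| ^ 3 ≤ T ^ 3 := pow_le_pow_left₀ h0 hb 3
  have h5 : b ^ 2 ≤ T ^ 2 := by
    rw [← sq_abs]
    exact pow_le_pow_left₀ h0 hb 2
  have h6 : |s| ≤ 1 := by rw [hs]; exact Real.abs_sin_le_one u
  have h7 : s * (Real.sin b - b) ≤ T ^ 3 := by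
    calc s * (Real.sin b - b) ≤ |s * (Real.sin b - b)| := le_abs_self _
      _ = |s| * |Real.sin b - b| := abs_mul _ _
      _ ≤ 1 * |b| ^ 3 := mul_le_mul h6 h2 (abs_nonneg _) zero_le_one
      _ ≤ T ^ 3 := by rw [one_mul]; exact h4
  have h8 : c * (1 - T ^ 2 / 2) ≤ c * Real.cos b := by
    apply mul_le_mul_of_nonneg_left _ hc0
    linarith
  rw [Real.cos_add, ← hc, ← hs]
  have h9 : s * Real.sin b = s * b + s * (Real.sin b - b) := by ring
  linarith

theorem subsol (h : CWalk P hh R) : ∃ C : ℝ, 0 < C ∧ ∃ w0 : ℕ, 1 ≤ w0 ∧ ∀ w : ℕ, w0 ≤ w →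
    C / (w : ℝ) ^ 2 ≤ 1 / 2 ∧ ∀ x : ℤ, (1 - C / (w : ℝ) ^ 2) * psi w x ≤
      P.sum (fun g a => a * psi w (x + hh g)) := by
  have hpi := Real.pi_pos
  have hpi4 := Real.pi_le_four
  have hR0 : (0 : ℝ) ≤ R := by positivity
  obtain ⟨D, hD⟩ : ∃ D : ℝ, D = (R : ℝ) ^ 2 / 2 + 2 * (R : ℝ) ^ 3 := ⟨_, rfl⟩
  have hD0 : 0 ≤ D := by rw [hD]; positivity
  obtain ⟨C, hC⟩ : ∃ C : ℝ, C = Real.pi ^ 2 / 4 * D + 1 := ⟨_, rfl⟩
  have hC0 : 0 < C := by rw [hC]; positivity
  refine ⟨C, hC0, ⌈2 * C⌉₊ + 2 * R + 1, by omega, ?_⟩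
  intro w hw
  have hw1 : 1 ≤ w := by omega
  have hwR : 2 * R ≤ w := by omega
  have hwC : 2 * C ≤ (w : ℝ) := by
    have h1 : ⌈2 * C⌉₊ ≤ w := by omega
    exact (Nat.le_ceil _).trans (by exact_mod_cast h1)
  have hwr : (1 : ℝ) ≤ w := by exact_mod_cast hw1
  have hw0 : (0 : ℝ) < w := by linarith
  have hwRr : 2 * (R : ℝ) ≤ w := by exact_mod_cast hwR
  have hsq : (w : ℝ) ≤ (w : ℝ) ^ 2 := by nlinarith
  refine ⟨?_, ?_⟩
  · rw [div_le_iff₀ (by positivity)]
    linarith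
  intro x
  have hnn : 0 ≤ P.sum (fun g a => a * psi w (x + hh g)) :=
    Finset.sum_nonneg fun g _ => mul_nonneg (h.nonneg g) (psi_nonneg _ _)
  rcases le_or_gt (w : ℤ) |x| with hx | hx
  · rw [psi_zero hw1 hx, mul_zero]
    exact hnn
  · obtain ⟨θ, hθ⟩ : ∃ θ : ℝ, θ = Real.pi / (2 * w) := ⟨_, rfl⟩
    have hθ0 : 0 < θ := by rw [hθ]; positivity
    have hθw : θ * w = Real.pi / 2 := by
      rw [hθ]
      field_simp
    have hform : ∀ y : ℤ, Real.pi * y / (2 * w) = θ * y := by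
      intro y
      rw [hθ]
      ring
    have hT : θ * R ≤ 1 := by
      have h1 : θ * (2 * R) ≤ θ * w := mul_le_mul_of_nonneg_left hwRr hθ0.le
      rw [hθw] at h1
      nlinarith
    have hcx : psi w x = Real.cos (θ * x) := by
      rw [psi_eq_cos hx.le, hform]
    -- lower bound of the cosine
    have hxr : |(x : ℝ)| ≤ w - 1 := by
      have h1 : |x| ≤ (w : ℤ) - 1 := by omega
      exact_mod_cast h1
    have hlow : θ / 2 ≤ Real.cos (θ * x) := by
      have h1 : |θ * x| ≤ Real.pi / 2 - θ := by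
        rw [abs_mul, abs_of_pos hθ0]
        have h2 : θ * |(x : ℝ)| ≤ θ * (w - 1) := mul_le_mul_of_nonneg_left hxr hθ0.le
        have h3 : θ * ((w : ℝ) - 1) = Real.pi / 2 - θ := by
          rw [mul_sub, hθw]
          ring
        linarith
      rw [← Real.cos_abs]
      have h4 : Real.sin θ ≤ Real.cos |θ * x| := by
        rw [← Real.cos_pi_div_two_sub]
        apply Real.cos_le_cos_of_nonneg_of_le_pi (abs_nonneg _) _ h1
        linarith
      have h5 : θ ≤ Real.pi / 2 := by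
        have h6 := abs_nonneg (θ * x)
        linarith
      have h6 := Real.mul_le_sin hθ0.le h5
      have h7 : (1 : ℝ) / 2 ≤ 2 / Real.pi := by
        rw [div_le_div_iff₀ (by norm_num) hpi]
        linarith
      have h8 : 1 / 2 * θ ≤ 2 / Real.pi * θ := mul_le_mul_of_nonneg_right h7 hθ0.le
      linarith
    have hc0 : 0 ≤ Real.cos (θ * x) := by linarith
    obtain ⟨A, hA⟩ : ∃ A : ℝ, A = Real.cos (θ * x) * (1 - (θ * R) ^ 2 / 2) - (θ * R) ^ 3 := ⟨_, rfl⟩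
    obtain ⟨B, hB⟩ : ∃ B : ℝ, B = Real.sin (θ * x) * θ := ⟨_, rfl⟩
    have hpt : ∀ g ∈ P.support, P g * (A - B * (hh g : ℝ)) ≤ P g * psi w (x + hh g) := by
      intro g hg
      apply mul_le_mul_of_nonneg_left _ (h.nonneg g)
      have hbd := h.bdd g (Finsupp.mem_support_iff.1 hg)
      have hbdr : |(hh g : ℝ)| ≤ R := by exact_mod_cast hbd
      have h1 : |x + hh g| ≤ 3 * (w : ℤ) := by
        have h2 := abs_add_le x (hh g)
        have h3 : (2 * R : ℤ) ≤ w := by exact_mod_cast hwR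
        have h4 : (0 : ℤ) ≤ R := by positivity
        linarith
      refine le_trans ?_ (cos_le_psi hw1 h1)
      rw [hform]
      push_cast
      rw [mul_add]
      have h5 := j1_point (θ * x) rfl rfl hc0 (b := θ * hh g) (T := θ * R) (by
        rw [abs_mul, abs_of_pos hθ0]
        exact mul_le_mul_of_nonneg_left hbdr hθ0.le) hT
      rw [hA, hB]
      linarith
    have hsum : A ≤ P.sum (fun g a => a * psi w (x + hh g)) := by
      have h1 : P.sum (fun g a => a * (A - B * (hh g : ℝ))) = A := by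
        have h2 : P.sum (fun g a => a * (A - B * (hh g : ℝ))) =
            A * P.sum (fun _ a => a) - B * P.sum (fun g a => a * (hh g : ℝ)) := by
          unfold Finsupp.sum
          rw [Finset.mul_sum, Finset.mul_sum, ← Finset.sum_sub_distrib]
          refine Finset.sum_congr rfl fun g _ => ?_
          ring
        rw [h2, h.mean]
        have h3 : P.sum (fun _ a => a) = 1 := h.total
        rw [h3]
        ring
      rw [← h1]
      exact Finset.sum_le_sum hpt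
    refine le_trans ?_ hsum
    rw [hcx, hA]
    -- `θ^3 R^3 ≤ 2 θ^2 R^3 cos`
    have h1 : (θ * R) ^ 3 ≤ θ ^ 2 * (2 * (R : ℝ) ^ 3) * Real.cos (θ * x) := by
      have h2 : (θ * R) ^ 3 = θ ^ 2 * (2 * (R : ℝ) ^ 3) * (θ / 2) := by ring
      rw [h2]
      exact mul_le_mul_of_nonneg_left hlow (by positivity)
    have h3 : θ ^ 2 * D ≤ C / (w : ℝ) ^ 2 := by
      have h4 : θ ^ 2 * D = (Real.pi ^ 2 / 4 * D) / (w : ℝ) ^ 2 := by
        rw [hθ]
        field_simp
        ring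
      rw [h4, hC]
      apply div_le_div_of_nonneg_right _ (by positivity)
      linarith
    have h5 : (1 - C / (w : ℝ) ^ 2) * Real.cos (θ * x) ≤ (1 - θ ^ 2 * D) * Real.cos (θ * x) := by
      apply mul_le_mul_of_nonneg_right _ hc0
      linarith
    have h6 : (1 - θ ^ 2 * D) * Real.cos (θ * x) = Real.cos (θ * x) * (1 - (θ * R) ^ 2 / 2) -
        θ ^ 2 * (2 * (R : ℝ) ^ 3) * Real.cos (θ * x) := by
      rw [hD]
      ring
    linarith

end Pool.Agent.H34.DC
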