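import Pool.Agent.H34.RP.E3

/-!
J3: survival at all times implies survival at the multiples of `t`. By `su_eq`, `su P T (t * m) y = ((op T (ker P))^[t * m] 1) y` for `y ∈ T`, `= (((op T (ker P))^[t])^[m] 1) y`
(`Function.iterate_mul`), and `(op T (ker P))^[t] g ≤ op T (ker (pw P t)) g` on `T` for `g ≥ 0` (`op_pw`); `op` is monotone and depends only on the values on `T`: induction on `m`.
-/

namespace Pool.Agent.H34.DC

open Pool.Agent.H34.LS Pool.Agent.H34.RP

universe u

variable {G : Type u} [Group G] {P : G →₀ ℝ}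

private theorem J3_nonneg (hP : ∀ g, 0 ≤ P g) (T : Finset G) (k : ℕ) (x : G) :
    0 ≤ ((op T (ker P))^[k] (fun _ => (1 : ℝ))) x := by
  induction k generalizing x with
  | zero => exact zero_le_one
  | succ k ih =>
    rw [Function.iterate_succ_apply']
    exact Finset.sum_nonneg fun y _ => mul_nonneg (hP _) (ih y)

theorem su_pow (hP : ∀ g, 0 ≤ P g) (T : Finset G) (t m : ℕ) {y : G} (hy : y ∈ T) :
    su P T (t * m) y ≤ su (pw P t) T m y := by
  rw [su_eq P T (t * m) hy, su_eq (pw P t) T m hy]
  induction m generalizing y with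
  | zero => rw [Nat.mul_zero]; exact le_rfl
  | succ m ih =>
    have h1 : (op T (ker P))^[t * (m + 1)] (fun _ => (1 : ℝ))
        = (op T (ker P))^[t] ((op T (ker P))^[t * m] (fun _ => (1 : ℝ))) := by
      rw [← Function.iterate_add_apply]
      congr 2
      ring
    rw [h1, Function.iterate_succ_apply']
    refine (op_pw hP T (fun x => J3_nonneg hP T (t * m) x) t hy).trans ?_
    refine Finset.sum_le_sum fun x hx => ?_
    exact mul_le_mul_of_nonneg_left (ih hx) (pw_nonneg hP t _)

end Pool.Agent.H34.DC
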