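import Pool.Agent.H34.DC.J3
import Pool.Agent.H34.RP.D4
import Pool.Agent.H34.RP.F0

/-!
J4: the drop at one scale, without symmetry (copy of F2 (`drop_scale`) with `a = ` indicator of `1` in `drop4`: `ε = su (pw P t) T m 1 ≥ su P T (t m) 1 ≥ (1 - l)^(t m)`).
-/

namespace Pool.Agent.H34.DC

open Pool.Agent.H34.LS Pool.Agent.H34.RP

universe u

variable {G : Type u} [Group G] {P : G →₀ ℝ}

theorem drop_scale2 (hP : Prb P) {L : ℝ} (hL0 : 0 ≤ L)
    (hL : ∀ g, P g ≠ 0 → -Real.log (P g) ≤ L) {e : ℝ} (he : 0 < e)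
    (hA : ∀ n, e ≤ fent (pw P (n + 1)) - fent (pw P n)) {T : Finset G} (h1 : (1 : G) ∈ T) {l : ℝ}
    (hl0 : 0 ≤ l) (hl : l ≤ 1 / 2) (hsu : ∀ n, (1 - l) ^ n ≤ su P T n 1) {t m : ℕ}
    (ht2 : 2 ≤ t) (hm : 1 ≤ m) (ht : l * (t : ℝ) ≤ e / (32 * (L + 1)))
    (hT : 32 * Real.log T.card ≤ e * ((t * m : ℕ) : ℝ)) :
    fent (pw P (t * m)) / ((t * m : ℕ) : ℝ) ≤
      fent (pw P t) / (t : ℝ) - e / 4 * Real.exp (-(2 * l * ((t * m : ℕ) : ℝ))) := by
  classical
  have hq : Prb (pw P t) := ⟨fun g => pw_nonneg hP.nonneg t g, tot_pw hP.total _⟩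
  have ht2' : (2 : ℝ) ≤ (t : ℝ) := by exact_mod_cast ht2
  have hm1' : (1 : ℝ) ≤ (m : ℝ) := by exact_mod_cast hm
  have hTe : ((t * m : ℕ) : ℝ) = (t : ℝ) * (m : ℝ) := by push_cast; ring
  have hl1 : 0 < 1 - l := by linarith
  have hs3 : (1 - l) ^ (t * m) ≤ su (pw P t) T m 1 :=
    (hsu (t * m)).trans (su_pow hP.nonneg T t m h1)
  have hLt : ∀ g, pw P t g ≠ 0 → -Real.log (pw P t g) ≤ L * (t : ℝ) + 1 := fun g hg =>
    (pw_log_le hP.nonneg hL t g hg).trans (by linarith)
  have hent := ent_ge hA t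
  have hL'0 : 0 < L * (t : ℝ) + 1 := by
    have h0 : 0 ≤ L * (t : ℝ) := mul_nonneg hL0 (by linarith)
    linarith
  have hεpos : 0 < su (pw P t) T m 1 := (pow_pos hl1 _).trans_le hs3
  have hsum1 : ∑ y ∈ T, (if y = (1 : G) then (1 : ℝ) else 0) = 1 := by
    rw [Finset.sum_ite_eq' T (1 : G) (fun _ => (1 : ℝ)), if_pos h1]
  have hsum2 : ∑ y ∈ T, (if y = (1 : G) then (1 : ℝ) else 0) * su (pw P t) T m y =
      su (pw P t) T m 1 := by
    have h0 : ∀ y ∈ T, (if y = (1 : G) then (1 : ℝ) else 0) * su (pw P t) T m y =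
        if y = (1 : G) then su (pw P t) T m y else 0 := by
      intro y _
      split_ifs <;> simp
    rw [Finset.sum_congr rfl h0,
      Finset.sum_ite_eq' T (1 : G) (fun y => su (pw P t) T m y), if_pos h1]
  have hd := drop4 hq hL'0 hLt T (a := fun y => if y = (1 : G) then (1 : ℝ) else 0)
    (fun y _ => by
      show (0 : ℝ) ≤ if y = (1 : G) then (1 : ℝ) else 0
      split_ifs <;> norm_num) hsum1 m (by rw [hsum2]; exact hεpos)
  rw [hsum2, pw_pw] at hd
  have hlog1 : -(2 * l) ≤ Real.log (1 - l) := by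
    have h0 := Real.one_sub_inv_le_log_of_pos hl1
    have h2 : (1 - l)⁻¹ ≤ 1 + 2 * l := by
      rw [inv_le_iff_one_le_mul₀ hl1]
      nlinarith
    linarith
  have hlogp : Real.log ((1 - l) ^ (t * m)) = ((t * m : ℕ) : ℝ) * Real.log (1 - l) :=
    Real.log_pow _ _
  generalize hεdef : su (pw P t) T m 1 = ε at *
  generalize hFt : fent (pw P t) = Ft at *
  generalize hFT : fent (pw P (t * m)) = FT at *
  generalize hD : Real.log (T.card : ℝ) = D at *
  generalize hNdef : t * m = N at *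
  generalize htdef : (t : ℝ) = s at *
  generalize hmdef : (m : ℝ) = r at *
  have hT0 : 0 < (N : ℝ) := by
    rw [hTe]
    have h0 : 0 < s := by linarith
    have h2 : 0 < r := by linarith
    exact mul_pos h0 h2
  have hlogε : -Real.log ε ≤ 2 * l * N := by
    have h0 := Real.log_le_log (pow_pos hl1 _) hs3
    rw [hlogp] at h0
    have h2 := mul_le_mul_of_nonneg_left hlog1 hT0.le
    linarith
  have hεexp : Real.exp (-(2 * l * N)) ≤ ε := by
    rw [← Real.le_log_iff_exp_le hεpos]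
    linarith
  have hL1 : 0 < L + 1 := by linarith
  have hlT : l * s * (L + 1) ≤ e / 32 := by
    have h0 := mul_le_mul_of_nonneg_right ht hL1.le
    have h2 : e / (32 * (L + 1)) * (L + 1) = e / 32 := by field_simp
    linarith
  have hb1 : (L * s + 1 + 1) * (-Real.log ε) ≤ e * N / 16 := by
    have h0 : 0 ≤ 2 * l * N := by positivity
    have h2 : L * s + 1 + 1 ≤ (L + 1) * s := by nlinarith
    have h3 : 0 ≤ L * s + 1 + 1 := by linarith
    calc (L * s + 1 + 1) * (-Real.log ε) ≤ (L * s + 1 + 1) * (2 * l * N) :=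
          mul_le_mul_of_nonneg_left hlogε h3
      _ ≤ (L + 1) * s * (2 * l * N) := mul_le_mul_of_nonneg_right h2 h0
      _ = 2 * N * (l * s * (L + 1)) := by ring
      _ ≤ 2 * N * (e / 32) := mul_le_mul_of_nonneg_left hlT (by positivity)
      _ = e * N / 16 := by ring
  have hb2 : e * N / 2 ≤ r * Ft / 2 := by
    have h0 : e * s * r ≤ Ft * r := mul_le_mul_of_nonneg_right hent (by linarith)
    rw [hTe]
    linarith
  have hb3 : e * N / 4 ≤ r * Ft / 2 - D - (L * s + 1 + 1) * (-Real.log ε) := by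
    have h0 : 0 < e * N := mul_pos he hT0
    linarith
  have hb4 : e * N / 4 * Real.exp (-(2 * l * N)) ≤
      ε * (r * Ft / 2 - D - (L * s + 1 + 1) * (-Real.log ε)) := by
    have h0 : 0 ≤ e * N / 4 := by positivity
    calc e * N / 4 * Real.exp (-(2 * l * N)) ≤ e * N / 4 * ε :=
          mul_le_mul_of_nonneg_left hεexp h0
      _ = ε * (e * N / 4) := by ring
      _ ≤ _ := mul_le_mul_of_nonneg_left hb3 hεpos.le
  have hfin : FT ≤ r * Ft - e * N / 4 * Real.exp (-(2 * l * N)) := by linarith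
  have ht0 : 0 < s := by linarith
  have hm0 : 0 < r := by linarith
  rw [div_le_iff₀ hT0]
  have h5 : (Ft / s - e / 4 * Real.exp (-(2 * l * N))) * N =
      r * Ft - e * N / 4 * Real.exp (-(2 * l * N)) := by
    have h6 : Ft / s * N = r * Ft := by
      rw [hTe]
      field_simp
    linear_combination h6
  rw [h5]
  exact hfin

end Pool.Agent.H34.DC
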