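import Pool.Agent.H34.DC.J1
import Pool.Agent.H34.DC.J2
import Pool.Agent.H34.DC.J5
import Pool.Agent.H34.RP.R1
import Pool.Agent.H34.RP.Stm
import Pool.Agent.H34.LS.E7
import Pool.Agent.H34.LS.E14
import Pool.Agent.H34.LS.V15
import Pool.Agent.H34.LS.V21

/-!
J6: the window criterion for centered measures. Opening as in V20 `window_criterion` (`triv_iff`, `liou_of_small`, entropy increments `≥ e > 0`, nonincreasing; see also RP/T1); no
symmetry is used there. `P = (toPA mu _).coeff`, `hh g = toAdd (f g)`, `CWalk P hh R` (mean zero is `drift f mu = 0`: the `finsum` is the sum over the support). `subsol` gives `C`, `w0`; `rch_sub` gives `B`. For `j` large let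
`w = 2^(j-1)` (`w ≥ w0`, `w ≥ B`, so `w + B ≤ 2^j`), `T = (Rch P hh w)` as a finset (finite, contained in the window `2^j`: `window_mono`), `K j = log |window f S (2^j)| / 4^j`,
`log |T| ≤ 4^j K j`, `C / w^2 = 4 C / 4^j`, `C1 = 4 C`; `su_rch` at `x = 1` (`psi w 0 = 1`). `series_bound2` contradicts `Diverges`.
-/

namespace Pool.Agent.H34.DC

open Pool.Agent.H34.LS Pool.Agent.H34.RP

universe u

variable {G : Type u} [Group G]

private theorem j6_sum {mu : G → ℝ} (h : IsFSProb mu) (F : G → ℝ → ℝ) (hF : ∀ g, F g 0 = 0) :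
    (toPA mu h.finite).coeff.sum F = ∑ᶠ g, F g (mu g) := by
  have h0 : (toPA mu h.finite).coeff.support = h.finite.toFinset := rfl
  rw [Finsupp.sum, h0]
  symm
  rw [finsum_eq_sum_of_support_subset (s := h.finite.toFinset)]
  · rfl
  · intro g hg
    rw [Finset.mem_coe, Set.Finite.mem_toFinset]
    intro h1
    apply hg
    show F g (mu g) = 0
    rw [h1, hF]

private theorem j6_psi (w : ℕ) : psi w 0 = 1 := by
  unfold psi
  simp

/-- one scale -/
private theorem j6_scale (f : G →* Multiplicative ℤ) (S : Set G)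
    (hfin : ∀ n, (window f S n).Finite) {P : G →₀ ℝ} {R : ℕ}
    (hC : CWalk P (fun g => Multiplicative.toAdd (f g)) R) {C : ℝ} {w0 B : ℕ} (hw0 : 1 ≤ w0)
    (hsub : ∀ w : ℕ, w0 ≤ w → C / (w : ℝ) ^ 2 ≤ 1 / 2 ∧
      ∀ x : ℤ, (1 - C / (w : ℝ) ^ 2) * psi w x ≤
        P.sum (fun g a => a * psi w (x + Multiplicative.toAdd (f g))))
    (hB : ∀ w : ℕ, Rch P (fun g => Multiplicative.toAdd (f g)) w ⊆ window f S (w + B))
    {w : ℕ} (hw : w0 ≤ w) (hBw : B ≤ w) :
    ∃ T : Finset G, (1 : G) ∈ T ∧ C / (w : ℝ) ^ 2 ≤ 1 / 2 ∧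
      (∀ n, (1 - C / (w : ℝ) ^ 2) ^ n ≤ su P T n 1) ∧
      Real.log T.card ≤ Real.log ((window f S (2 * w)).ncard : ℝ) := by
  obtain ⟨h1, h2⟩ := hsub w hw
  have hss : Rch P (fun g => Multiplicative.toAdd (f g)) w ⊆ window f S (2 * w) :=
    (hB w).trans (window_mono f S (by omega))
  have hf : (Rch P (fun g => Multiplicative.toAdd (f g)) w).Finite := (hfin (2 * w)).subset hss
  have hmem : (1 : G) ∈ hf.toFinset := (Set.Finite.mem_toFinset hf).2 (one_mem_rch hC w)
  have hpos : 1 ≤ hf.toFinset.card := Finset.card_pos.2 ⟨1, hmem⟩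
  refine ⟨hf.toFinset, hmem, h1, fun n => ?_, ?_⟩
  · have h3 := su_rch hC (hw0.trans hw) (l := 1 - C / (w : ℝ) ^ 2) (by linarith) h2
      (T := hf.toFinset) (Set.Finite.coe_toFinset hf) n hmem
    have h4 : (Multiplicative.toAdd (f 1) : ℤ) = 0 := by rw [map_one, toAdd_one]
    have h5 : psi w ((fun g => Multiplicative.toAdd (f g)) (1 : G)) = 1 := by
      show psi w (Multiplicative.toAdd (f 1)) = 1
      rw [h4, j6_psi]
    rw [h5, mul_one] at h3
    exact h3
  · have h6 : hf.toFinset.card ≤ (window f S (2 * w)).ncard := by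
      rw [← Set.ncard_coe_finset]
      refine Set.ncard_le_ncard ?_ (hfin _)
      rw [Set.Finite.coe_toFinset]
      exact hss
    refine Real.log_le_log ?_ ?_
    · exact_mod_cast hpos
    · exact_mod_cast h6

theorem centered_criterion (f : G →* Multiplicative ℤ) (S : Set G)
    (hS : Subgroup.closure S = ⊤) (hfin : ∀ n, (window f S n).Finite)
    (hdiv : Diverges (fun j => Real.log ((window f S (2 ^ j)).ncard : ℝ) / 4 ^ j))
    {mu : G → ℝ} (h : IsFSProb mu) (hg : Generating mu) (h0 : drift f mu = 0) :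
    TrivialBoundary mu := by
  rw [triv_iff h]
  set p := toPA mu h.finite with hp
  have hpa : PA p := toPA_pa h
  by_contra hcon
  have hex : ∃ e : ℝ, 0 < e ∧ ∀ n : ℕ, e ≤ ent (p ^ (n + 1)) - ent (p ^ n) := by
    by_contra hne
    push Not at hne
    exact hcon (liou_of_small hpa (toPA_gen h hg) hne)
  obtain ⟨e, he, hent⟩ := hex
  set P : G →₀ ℝ := p.coeff with hP
  have hPrb : Prb P := prb_of h
  have hAA : ∀ j, fent (pw P (j + 1)) - fent (pw P j) = ent (p ^ (j + 1)) - ent (p ^ j) := by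
    intro j
    rw [hP, ← pw_coeff, ← pw_coeff]
    rfl
  have hA : ∀ j, e ≤ fent (pw P (j + 1)) - fent (pw P j) := fun j => by rw [hAA]; exact hent j
  have hanti : Antitone (fun n : ℕ => fent (pw P (n + 1)) - fent (pw P n)) := by
    refine antitone_nat_of_succ_le fun j => ?_
    show fent (pw P (j + 1 + 1)) - fent (pw P (j + 1)) ≤ fent (pw P (j + 1)) - fent (pw P j)
    rw [hAA, hAA]
    exact ent_mono hpa j
  obtain ⟨L, hL0, hL⟩ : ∃ L : ℝ, 0 ≤ L ∧ ∀ g, P g ≠ 0 → - Real.log (P g) ≤ L := by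
    refine ⟨∑ g ∈ P.support, |Real.log (P g)|, Finset.sum_nonneg fun _ _ => abs_nonneg _, fun g hg0 => ?_⟩
    refine (neg_le_abs _).trans ?_
    exact Finset.single_le_sum (f := fun g => |Real.log (P g)|) (fun _ _ => abs_nonneg _)
      (Finsupp.mem_support_iff.2 hg0)
  -- the bound of the heights
  obtain ⟨R, hR⟩ : ∃ R : ℕ, ∀ g, P g ≠ 0 → |(Multiplicative.toAdd (f g) : ℤ)| ≤ (R : ℤ) := by
    refine ⟨P.support.sup (fun g => (Multiplicative.toAdd (f g) : ℤ).natAbs), fun g hg0 => ?_⟩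
    have h1 : (Multiplicative.toAdd (f g) : ℤ).natAbs ≤
        P.support.sup (fun g => (Multiplicative.toAdd (f g) : ℤ).natAbs) :=
      Finset.le_sup (f := fun g => (Multiplicative.toAdd (f g) : ℤ).natAbs)
        (Finsupp.mem_support_iff.2 hg0)
    have h2 : |(Multiplicative.toAdd (f g) : ℤ)| = ((Multiplicative.toAdd (f g) : ℤ).natAbs : ℤ) :=
      Int.abs_eq_natAbs _
    rw [h2]
    exact_mod_cast h1
  have hC : CWalk P (fun g => Multiplicative.toAdd (f g)) R := by
    refine ⟨hPrb.nonneg, hPrb.total, fun x y => ?_, hR, ?_⟩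
    · show Multiplicative.toAdd (f (x * y)) = _
      rw [map_mul, toAdd_mul]
    · have h1 := j6_sum h (fun g a => a * ((Multiplicative.toAdd (f g) : ℤ) : ℝ))
        (fun g => zero_mul _)
      exact h1.trans h0
  obtain ⟨C, hC0, w0, hw0, hsub⟩ := subsol hC
  obtain ⟨B, hB⟩ := rch_sub f hS P
  set K : ℕ → ℝ := fun j => Real.log ((window f S (2 ^ j)).ncard : ℝ) / 4 ^ j with hK
  have hK0 : ∀ j, 0 ≤ K j := fun j =>
    div_nonneg (Real.log_natCast_nonneg _) (by positivity)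
  obtain ⟨j1, hj1, hj1'⟩ : ∃ j1 : ℕ, B ≤ 2 ^ j1 ∧ w0 ≤ 2 ^ j1 := by
    refine ⟨B + w0, ?_, ?_⟩
    · exact (Nat.le_add_right B w0).trans (Nat.lt_two_pow_self).le
    · exact (Nat.le_add_left w0 B).trans (Nat.lt_two_pow_self).le
  obtain ⟨c, hc, hsum⟩ := series_bound2 hPrb hL0 hL he hA hanti (C1 := 4 * C) (by linarith)
    hK0 (j1 + 1) (by
      intro j hj
      obtain ⟨i, rfl⟩ : ∃ i, j = i + 1 := ⟨j - 1, by omega⟩
      have hi : j1 ≤ i := by omega
      have hpow : (2 : ℕ) ^ j1 ≤ 2 ^ i := Nat.pow_le_pow_right (by norm_num) hi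
      obtain ⟨T, hT1, hT2, hT3, hT4⟩ := j6_scale f S hfin hC hw0 hsub hB (w := 2 ^ i)
        (hj1'.trans hpow) (hj1.trans hpow)
      have h4 : 4 * C / 4 ^ (i + 1) = C / ((2 ^ i : ℕ) : ℝ) ^ 2 := by
        have h5 : (4 : ℝ) ^ i = (2 ^ i) ^ 2 := by
          rw [← pow_mul, mul_comm i 2, pow_mul]
          norm_num
        push_cast
        rw [pow_succ, h5, mul_comm ((2 ^ i : ℝ) ^ 2) 4, mul_div_mul_left _ _ (by norm_num)]
      have h2 : 2 * 2 ^ i = 2 ^ (i + 1) := by ring
      have hlog : Real.log ((window f S (2 ^ (i + 1))).ncard : ℝ) = 4 ^ (i + 1) * K (i + 1) := by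
        rw [hK]
        field_simp
      refine ⟨T, hT1, ?_, fun n => ?_, ?_⟩
      · rw [h4]
        exact hT2
      · rw [h4]
        exact hT3 n
      · rw [h2] at hT4
        rw [← hlog]
        exact hT4)
  exact hdiv c hc hsum

end Pool.Agent.H34.DC
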