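import Pool.Agent.H34.DC.N2
import Pool.Agent.H34.LS.V2

/-!
N3: exponential bound for low heights. `φ θ = sum_g P g exp (-θ f g)`, `φ 0 = 1`, `φ' 0 = - mean < 0`, so `φ θ < 1` for a small `θ > 0` (or elementary: `exp (-y) ≤ 1 - y + y^2` for `|y| ≤ 1`, so
`φ θ ≤ 1 - θ m + θ^2 R^2 < 1`). `sum_x pw P n x * exp (-θ f x) = (φ θ)^n` (induction, `pw P (n+1) = bnd P (fun g => tl g (pw P n))`, `sum_bnd`, `sum_tl` of V1), and
`1 ≤ exp (θ (M - f x))` where `f x < M`.
-/

namespace Pool.Agent.H34.DC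

open Pool.Agent.H34.LS Pool.Agent.H34.RP

universe u

variable {G : Type u} [Group G]

private theorem N3_ht_mul (f : G →* Multiplicative ℤ) (x y : G) :
    ht f (x * y) = ht f x + ht f y := by
  unfold ht
  rw [map_mul, toAdd_mul]

private theorem N3_pow {P : G →₀ ℝ} (f : G →* Multiplicative ℤ) (θ : ℝ) (n : ℕ) :
    (pw P n).sum (fun x a => a * Real.exp (-(θ * (ht f x : ℝ)))) =
      (P.sum (fun g a => a * Real.exp (-(θ * (ht f g : ℝ))))) ^ n := by
  induction n with
  | zero =>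
    change (Finsupp.single (1 : G) (1 : ℝ)).sum (fun x a => a * Real.exp (-(θ * (ht f x : ℝ)))) = _
    rw [Finsupp.sum_single_index (zero_mul _), pow_zero, one_mul]
    have h : ht f (1 : G) = 0 := by
      unfold ht
      rw [map_one, toAdd_one]
    rw [h, Int.cast_zero, mul_zero, neg_zero, Real.exp_zero]
  | succ n ih =>
    change (bnd P (fun g => tl g (pw P n))).sum
      (fun x a => a * Real.exp (-(θ * (ht f x : ℝ)))) = _
    rw [sum_bnd]
    have h1 : ∀ g : G, (tl g (pw P n)).sum (fun y b => b * Real.exp (-(θ * (ht f y : ℝ)))) =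
        Real.exp (-(θ * (ht f g : ℝ))) *
          (P.sum (fun g a => a * Real.exp (-(θ * (ht f g : ℝ))))) ^ n := by
      intro g
      rw [sum_tl, ← ih, Finsupp.mul_sum]
      refine Finset.sum_congr rfl fun x _ => ?_
      change pw P n x * Real.exp (-(θ * (ht f (g * x) : ℝ))) =
        Real.exp (-(θ * (ht f g : ℝ))) * (pw P n x * Real.exp (-(θ * (ht f x : ℝ))))
      rw [N3_ht_mul, Int.cast_add, mul_add, neg_add, Real.exp_add]
      ring
    calc P.sum (fun z a => a * (tl z (pw P n)).sum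
          (fun y b => b * Real.exp (-(θ * (ht f y : ℝ)))))
        = ∑ g ∈ P.support, P g * Real.exp (-(θ * (ht f g : ℝ))) *
            (P.sum (fun g a => a * Real.exp (-(θ * (ht f g : ℝ))))) ^ n := by
          refine Finset.sum_congr rfl fun g _ => ?_
          change P g * (tl g (pw P n)).sum (fun y b => b * Real.exp (-(θ * (ht f y : ℝ)))) = _
          rw [h1 g, mul_assoc]
      _ = (P.sum (fun g a => a * Real.exp (-(θ * (ht f g : ℝ))))) ^ (n + 1) := by
          rw [← Finset.sum_mul, pow_succ']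
          rfl

theorem low_heights {P : G →₀ ℝ} (hP : Prb P) (f : G →* Multiplicative ℤ)
    (hm : 0 < P.sum (fun g a => a * (ht f g : ℝ))) :
    ∃ θ ρ : ℝ, 0 < θ ∧ 0 < ρ ∧ ρ < 1 ∧ ∀ (n : ℕ) (M : ℤ),
      (pw P n).sum (fun x a => a * (open Classical in if ht f x < M then (1 : ℝ) else 0)) ≤
        Real.exp (θ * M) * ρ ^ n := by
  obtain ⟨m, hmd⟩ : ∃ m, m = P.sum (fun g a => a * (ht f g : ℝ)) := ⟨_, rfl⟩
  rw [← hmd] at hm
  obtain ⟨R, hR⟩ : ∃ R : ℝ, R = 1 + ∑ g ∈ P.support, |(ht f g : ℝ)| := ⟨_, rfl⟩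
  have hR1 : 1 ≤ R := by
    have := Finset.sum_nonneg (fun g (_ : g ∈ P.support) => abs_nonneg (ht f g : ℝ))
    linarith
  have hR0 : 0 < R := by linarith
  have hb : ∀ g ∈ P.support, |(ht f g : ℝ)| ≤ R := by
    intro g hg
    have := Finset.single_le_sum (f := fun g => |(ht f g : ℝ)|) (fun g _ => abs_nonneg _) hg
    rw [hR]
    linarith
  have htot : ∑ g ∈ P.support, P g = 1 := hP.total
  have hmR : m ≤ R := by
    rw [hmd]
    calc P.sum (fun g a => a * (ht f g : ℝ)) ≤ ∑ g ∈ P.support, P g * R := by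
          refine Finset.sum_le_sum fun g hg => ?_
          exact mul_le_mul_of_nonneg_left ((le_abs_self _).trans (hb g hg)) (hP.nonneg g)
      _ = R := by rw [← Finset.sum_mul, htot, one_mul]
  obtain ⟨θ, hθ⟩ : ∃ θ : ℝ, θ = m / (2 * R ^ 2) := ⟨_, rfl⟩
  have hθ0 : 0 < θ := by rw [hθ]; positivity
  have hθR : θ * R ≤ 1 := by
    rw [hθ, div_mul_eq_mul_div, div_le_one (by positivity)]
    nlinarith
  have hφ : P.sum (fun g a => a * Real.exp (-(θ * (ht f g : ℝ)))) ≤ 1 - m ^ 2 / (4 * R ^ 2) := by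
    have h1 : ∀ g ∈ P.support, P g * Real.exp (-(θ * (ht f g : ℝ))) ≤
        P g * (1 + θ ^ 2 * R ^ 2) - θ * (P g * (ht f g : ℝ)) := by
      intro g hg
      have h2 : |-(θ * (ht f g : ℝ))| ≤ θ * R := by
        rw [abs_neg, abs_mul, abs_of_pos hθ0]
        exact mul_le_mul_of_nonneg_left (hb g hg) hθ0.le
      have h3 := Real.abs_exp_sub_one_sub_id_le (h2.trans hθR)
      have h4 := (abs_le.1 h3).2
      have h5 : (-(θ * (ht f g : ℝ))) ^ 2 ≤ θ ^ 2 * R ^ 2 := by
        rw [← sq_abs, ← mul_pow]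
        exact pow_le_pow_left₀ (abs_nonneg _) h2 2
      have h6 : Real.exp (-(θ * (ht f g : ℝ))) ≤ (1 + θ ^ 2 * R ^ 2) - θ * (ht f g : ℝ) := by
        linarith
      have h7 := mul_le_mul_of_nonneg_left h6 (hP.nonneg g)
      linarith [mul_sub (P g) (1 + θ ^ 2 * R ^ 2) (θ * (ht f g : ℝ)),
        mul_left_comm (P g) θ (ht f g : ℝ)]
    have h8 : P.sum (fun g a => a * Real.exp (-(θ * (ht f g : ℝ)))) ≤
        (1 + θ ^ 2 * R ^ 2) - θ * m := by
      calc P.sum (fun g a => a * Real.exp (-(θ * (ht f g : ℝ))))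
          ≤ ∑ g ∈ P.support, (P g * (1 + θ ^ 2 * R ^ 2) - θ * (P g * (ht f g : ℝ))) :=
            Finset.sum_le_sum h1
        _ = (1 + θ ^ 2 * R ^ 2) - θ * m := by
            rw [Finset.sum_sub_distrib, ← Finset.sum_mul, htot, one_mul, ← Finset.mul_sum, hmd]
            rfl
    refine h8.trans (le_of_eq ?_)
    rw [hθ]
    field_simp
    ring
  have hφ0 : 0 ≤ P.sum (fun g a => a * Real.exp (-(θ * (ht f g : ℝ)))) :=
    Finset.sum_nonneg fun g _ => mul_nonneg (hP.nonneg g) (Real.exp_pos _).le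
  have hq : m ^ 2 / (4 * R ^ 2) ≤ 1 / 4 := by
    rw [div_le_div_iff₀ (by positivity) (by norm_num)]
    nlinarith
  refine ⟨θ, 1 - m ^ 2 / (4 * R ^ 2), hθ0, by linarith, ?_, ?_⟩
  · have : 0 < m ^ 2 / (4 * R ^ 2) := by positivity
    linarith
  · intro n M
    have h1 : (pw P n).sum (fun x a => a * (open Classical in if ht f x < M then (1 : ℝ) else 0)) ≤
        Real.exp (θ * M) * (pw P n).sum (fun x a => a * Real.exp (-(θ * (ht f x : ℝ)))) := by
      rw [Finsupp.mul_sum]
      refine Finset.sum_le_sum fun x _ => ?_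
      have h2 : (open Classical in if ht f x < M then (1 : ℝ) else 0) ≤
          Real.exp (θ * M) * Real.exp (-(θ * (ht f x : ℝ))) := by
        rw [← Real.exp_add]
        split_ifs with h
        · refine Real.one_le_exp ?_
          have h3 : (ht f x : ℝ) ≤ (M : ℝ) := by exact_mod_cast h.le
          have h4 := mul_le_mul_of_nonneg_left h3 hθ0.le
          linarith
        · exact (Real.exp_pos _).le
      have h3 := mul_le_mul_of_nonneg_left h2 (pw_nonneg hP.nonneg n x)
      refine h3.trans (le_of_eq ?_)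
      change pw P n x * (Real.exp (θ * M) * Real.exp (-(θ * (ht f x : ℝ)))) =
        Real.exp (θ * M) * (pw P n x * Real.exp (-(θ * (ht f x : ℝ))))
      ring
    refine h1.trans ?_
    rw [N3_pow]
    exact mul_le_mul_of_nonneg_left (pow_le_pow_left₀ hφ0 hφ n) (Real.exp_pos _).le

end Pool.Agent.H34.DC
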