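import Pool.Agent.H34.DC.N3
import Pool.Agent.H34.RP.R1

/-!
N4: a nonconstant bounded harmonic function. `P = (toPA mu _).coeff`, `E` the support of `mu`, `R` a bound of the heights on `E`, `Fn x = 1` if `InUp f t E x`, else `0`.
`v n x = sum_g pw P n g * Fn (x * g)`. `v (n+1) x - v n x = sum_g pw P n g * (sum_s P s * Fn (x g s) - Fn (x g))` (`pw_add P n 1`: one more step on the right), and the bracket vanishes if
`ht (x g) ≥ R` (`inUp_step`) and is at most `1` in modulus, so `|v (n+1) x - v n x| ≤ exp (θ (R - ht x)) ρ^n` (`low_heights` with `M = R - ht x`). So `v n x` converges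
(`cauchySeq_of_le_geometric` or summability) to `u x`, `|u x - v 0 x| ≤ exp (θ (R - ht x)) / (1 - ρ)`, `0 ≤ u ≤ 1`, and `u x = sum_g P g u (x g)` since `v (n+1) x = sum_g P g v n (x g)` (first step).
For `M` large `u (t^M) ≥ 2/3` (`Fn = 1`) and `u (k t^M) ≤ 1/3` (`Fn = 0`), `ht (k t^M) = M`. So `u` is a bounded nonconstant harmonic function (`Harmonic mu u` is with `finsum`).
-/

namespace Pool.Agent.H34.DC

open Pool.Agent.H34.LS Pool.Agent.H34.RP

universe u

variable {G : Type u} [Group G]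

private theorem n4_sum {mu : G → ℝ} (h : IsFSProb mu) (F : G → ℝ → ℝ) (hF : ∀ g, F g 0 = 0) :
    (toPA mu h.finite).coeff.sum F = ∑ᶠ g, F g (mu g) := by
  have h0 : (toPA mu h.finite).coeff.support = h.finite.toFinset := rfl
  rw [Finsupp.sum, h0]
  symm
  rw [finsum_eq_sum_of_support_subset (s := h.finite.toFinset)]
  · rfl
  · intro g hg
    rw [Finset.mem_coe, Set.Finite.mem_toFinset]
    intro h1
    apply hg
    show F g (mu g) = 0
    rw [h1, hF]

private theorem n4_ht_mul (f : G →* Multiplicative ℤ) (x y : G) : ht f (x * y) = ht f x + ht f y := by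
  unfold ht
  rw [map_mul, toAdd_mul]

private theorem n4_abs (q : G →₀ ℝ) (hq : ∀ g, 0 ≤ q g) (D W : G → ℝ) (h : ∀ g, |D g| ≤ W g) :
    |q.sum (fun g a => a * D g)| ≤ q.sum (fun g a => a * W g) := by
  unfold Finsupp.sum
  refine (Finset.abs_sum_le_sum_abs _ _).trans (Finset.sum_le_sum fun g _ => ?_)
  rw [abs_mul, abs_of_nonneg (hq g)]
  exact mul_le_mul_of_nonneg_left (h g) (hq g)

private theorem n4_bd (q : G →₀ ℝ) (hq : ∀ g, 0 ≤ q g) (h1 : tot q = 1) (D : G → ℝ) (h0 : ∀ g, 0 ≤ D g)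
    (h2 : ∀ g, D g ≤ 1) : 0 ≤ q.sum (fun g a => a * D g) ∧ q.sum (fun g a => a * D g) ≤ 1 := by
  constructor
  · unfold Finsupp.sum
    exact Finset.sum_nonneg fun g _ => mul_nonneg (hq g) (h0 g)
  · rw [← h1]
    unfold tot Finsupp.sum
    refine Finset.sum_le_sum fun g _ => ?_
    have h3 := mul_le_mul_of_nonneg_left (h2 g) (hq g)
    rw [mul_one] at h3
    exact h3

private noncomputable def n4v (P : G →₀ ℝ) (F : G → ℝ) (n : ℕ) (x : G) : ℝ :=
  (pw P n).sum (fun g a => a * F (x * g))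

private theorem n4v_zero (P : G →₀ ℝ) (F : G → ℝ) (x : G) : n4v P F 0 x = F x := by
  show (Finsupp.single (1 : G) (1 : ℝ)).sum (fun g a => a * F (x * g)) = F x
  rw [Finsupp.sum_single_index (zero_mul _), one_mul, mul_one]

private theorem n4v_first (P : G →₀ ℝ) (F : G → ℝ) (n : ℕ) (x : G) :
    n4v P F (n + 1) x = P.sum (fun g a => a * n4v P F n (x * g)) := by
  show (bnd P (fun g => tl g (pw P n))).sum (fun g a => a * F (x * g)) = _
  rw [sum_bnd P (fun g => tl g (pw P n)) (fun g => F (x * g))]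
  refine Finset.sum_congr rfl fun g _ => ?_
  show P g * (tl g (pw P n)).sum (fun y b => b * F (x * y)) = P g * (pw P n).sum (fun y b => b * F (x * g * y))
  rw [sum_tl g (pw P n) (fun y => F (x * y))]
  congr 1
  refine Finset.sum_congr rfl fun y _ => ?_
  show pw P n y * F (x * (g * y)) = pw P n y * F (x * g * y)
  rw [mul_assoc x g y]

private theorem n4v_last (P : G →₀ ℝ) (F : G → ℝ) (n : ℕ) (x : G) :
    n4v P F (n + 1) x = (pw P n).sum (fun g a => a * P.sum (fun s b => b * F (x * g * s))) := by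
  show (pw P (n + 1)).sum (fun g a => a * F (x * g)) = _
  rw [pw_add P n 1, sum_bnd (pw P n) (fun z => tl z (pw P 1)) (fun g => F (x * g))]
  refine Finset.sum_congr rfl fun g _ => ?_
  show (pw P n) g * (tl g (pw P 1)).sum (fun y b => b * F (x * y)) =
    (pw P n) g * P.sum (fun s b => b * F (x * g * s))
  rw [sum_tl g (pw P 1) (fun y => F (x * y))]
  congr 1
  show (bnd P (fun s => tl s (pw P 0))).sum (fun y b => b * F (x * (g * y))) = _
  rw [sum_bnd P (fun s => tl s (pw P 0)) (fun y => F (x * (g * y)))]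
  refine Finset.sum_congr rfl fun s _ => ?_
  show P s * (tl s (pw P 0)).sum (fun y b => b * F (x * (g * y))) = P s * F (x * g * s)
  rw [sum_tl s (pw P 0) (fun y => F (x * (g * y)))]
  congr 1
  show (Finsupp.single (1 : G) (1 : ℝ)).sum (fun y b => b * F (x * (g * (s * y)))) = F (x * g * s)
  rw [Finsupp.sum_single_index (zero_mul _), one_mul, mul_one, mul_assoc x g s]

open Classical in
private noncomputable def n4F (f : G →* Multiplicative ℤ) (t : G) (E : Set G) (x : G) : ℝ :=
  if InUp f t E x then 1 else 0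

private theorem n4F_nonneg (f : G →* Multiplicative ℤ) (t : G) (E : Set G) (x : G) : 0 ≤ n4F f t E x := by
  unfold n4F
  split_ifs
  · exact zero_le_one
  · exact le_refl _

private theorem n4F_le (f : G →* Multiplicative ℤ) (t : G) (E : Set G) (x : G) : n4F f t E x ≤ 1 := by
  unfold n4F
  split_ifs
  · exact le_refl _
  · exact zero_le_one

private theorem n4_inc {P : G →₀ ℝ} (hP : Prb P) {f : G →* Multiplicative ℤ} {t : G}
    (ht1 : f t = Multiplicative.ofAdd 1) {E : Set G} {R : ℤ}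
    (hE : ∀ s, P s ≠ 0 → s ∈ E ∧ -R ≤ ht f s) (hR : 0 ≤ R) {θ ρ : ℝ}
    (hlow : ∀ (n : ℕ) (M : ℤ),
      (pw P n).sum (fun x a => a * (open Classical in if ht f x < M then (1 : ℝ) else 0)) ≤
        Real.exp (θ * M) * ρ ^ n) (n : ℕ) (x : G) :
    |n4v P (n4F f t E) (n + 1) x - n4v P (n4F f t E) n x| ≤
      Real.exp (θ * ((R - ht f x : ℤ) : ℝ)) * ρ ^ n := by
  have e : n4v P (n4F f t E) (n + 1) x - n4v P (n4F f t E) n x =
      (pw P n).sum (fun g a => a * (P.sum (fun s b => b * n4F f t E (x * g * s)) - n4F f t E (x * g))) := by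
    rw [n4v_last]
    unfold n4v Finsupp.sum
    rw [← Finset.sum_sub_distrib]
    refine Finset.sum_congr rfl fun g _ => ?_
    ring
  rw [e]
  refine (n4_abs (pw P n) (pw_nonneg hP.nonneg n) _
    (fun g => (open Classical in if ht f g < R - ht f x then (1 : ℝ) else 0)) ?_).trans (hlow n (R - ht f x))
  intro g
  by_cases hg : ht f g < R - ht f x
  · rw [if_pos hg]
    have h1 := n4_bd P hP.nonneg hP.total (fun s => n4F f t E (x * g * s)) (fun s => n4F_nonneg _ _ _ _)
      (fun s => n4F_le _ _ _ _)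
    have h2 := n4F_nonneg f t E (x * g)
    have h3 := n4F_le f t E (x * g)
    rw [abs_le]
    constructor
    · linarith [h1.1]
    · linarith [h1.2]
  · rw [if_neg hg]
    have h1 : R ≤ ht f (x * g) := by
      rw [n4_ht_mul]
      omega
    have h2 : P.sum (fun s b => b * n4F f t E (x * g * s)) = n4F f t E (x * g) := by
      have h3 : P.sum (fun s b => b * n4F f t E (x * g * s)) = tot P * n4F f t E (x * g) := by
        unfold tot Finsupp.sum
        rw [Finset.sum_mul]
        refine Finset.sum_congr rfl fun s hs => ?_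
        obtain ⟨hs1, hs2⟩ := hE s (Finsupp.mem_support_iff.1 hs)
        have h4 : 0 ≤ ht f (x * g * s) := by
          rw [n4_ht_mul]
          omega
        have h5 := inUp_step ht1 hs1 (le_trans hR h1) h4
        show P s * n4F f t E (x * g * s) = P s * n4F f t E (x * g)
        congr 1
        unfold n4F
        by_cases h6 : InUp f t E (x * g)
        · rw [if_pos h6, if_pos (h5.2 h6)]
        · rw [if_neg h6, if_neg fun h7 => h6 (h5.1 h7)]
      rw [h3, hP.total, one_mul]
    rw [h2, sub_self, abs_zero]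

theorem nontrivial_of_not_mem {mu : G → ℝ} (h : IsFSProb mu) (f : G →* Multiplicative ℤ) {t : G}
    (ht1 : f t = Multiplicative.ofAdd 1) (hm : 0 < drift f mu) {k : G} (hk : k ∈ f.ker)
    (hk2 : k ∉ up t (kp f t '' Function.support mu)) : ¬ TrivialBoundary mu := by
  classical
  have hP : Prb (toPA mu h.finite).coeff := prb_of h
  obtain ⟨P, hPd⟩ : ∃ P, P = (toPA mu h.finite).coeff := ⟨_, rfl⟩
  have hdr : 0 < P.sum (fun g a => a * (ht f g : ℝ)) := by
    have h1 := n4_sum h (fun g a => a * (ht f g : ℝ)) (fun g => zero_mul _)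
    rw [hPd, h1]
    exact hm
  rw [← hPd] at hP
  obtain ⟨θ, ρ, hθ, hρ0, hρ1, hlow⟩ := low_heights hP f hdr
  -- a bound for the heights
  obtain ⟨R, hR, hRb⟩ : ∃ R : ℤ, 0 ≤ R ∧ ∀ s, P s ≠ 0 → -R ≤ ht f s := by
    refine ⟨∑ s ∈ P.support, |ht f s|, Finset.sum_nonneg fun s _ => abs_nonneg _, fun s hs => ?_⟩
    have h1 : |ht f s| ≤ ∑ s ∈ P.support, |ht f s| :=
      Finset.single_le_sum (f := fun s => |ht f s|) (fun s _ => abs_nonneg _) (Finsupp.mem_support_iff.2 hs)
    have h2 := neg_abs_le (ht f s)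
    linarith
  have hE : ∀ s, P s ≠ 0 → s ∈ Function.support mu ∧ -R ≤ ht f s := by
    intro s hs
    refine ⟨?_, hRb s hs⟩
    rw [hPd] at hs
    exact hs
  have hinc := n4_inc hP ht1 hE hR hlow
  have hlim : ∀ x, ∃ u : ℝ, Filter.Tendsto (fun n => n4v P (n4F f t (Function.support mu)) n x) Filter.atTop (nhds u) ∧
      |n4F f t (Function.support mu) x - u| ≤ Real.exp (θ * ((R - ht f x : ℤ) : ℝ)) / (1 - ρ) := by
    intro x
    have hd : ∀ n, dist (n4v P (n4F f t (Function.support mu)) n x) (n4v P (n4F f t (Function.support mu)) (n + 1) x) ≤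
        Real.exp (θ * ((R - ht f x : ℤ) : ℝ)) * ρ ^ n := by
      intro n
      rw [Real.dist_eq, abs_sub_comm]
      exact hinc n x
    obtain ⟨u, hu⟩ := cauchySeq_tendsto_of_complete
      (cauchySeq_of_le_geometric ρ (Real.exp (θ * ((R - ht f x : ℤ) : ℝ))) hρ1 hd)
    have h2 := dist_le_of_le_geometric_of_tendsto₀ ρ (Real.exp (θ * ((R - ht f x : ℤ) : ℝ))) hρ1 hd hu
    rw [n4v_zero, Real.dist_eq] at h2
    exact ⟨u, hu, h2⟩
  choose u hu hu2 using hlim
  have hv : ∀ n x, 0 ≤ n4v P (n4F f t (Function.support mu)) n x ∧ n4v P (n4F f t (Function.support mu)) n x ≤ 1 := by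
    intro n x
    exact n4_bd (pw P n) (pw_nonneg hP.nonneg n) (tot_pw hP.total n)
      (fun g => n4F f t (Function.support mu) (x * g)) (fun g => n4F_nonneg _ _ _ _) (fun g => n4F_le _ _ _ _)
  intro hT
  rw [triv_iff h] at hT
  have hbd : ∃ C, ∀ g, |u g| ≤ C := by
    refine ⟨1, fun g => abs_le.2 ⟨?_, ?_⟩⟩
    · have h1 : 0 ≤ u g := ge_of_tendsto' (hu g) fun n => (hv n g).1
      linarith
    · exact le_of_tendsto' (hu g) fun n => (hv n g).2
  have hharm : avg (toPA mu h.finite) u = u := by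
    funext x
    show (toPA mu h.finite).coeff.sum (fun g a => a * u (x * g)) = u x
    rw [← hPd]
    have h1 : Filter.Tendsto (fun n => n4v P (n4F f t (Function.support mu)) (n + 1) x) Filter.atTop (nhds (u x)) :=
      (Filter.tendsto_add_atTop_iff_nat 1).2 (hu x)
    have h2 : Filter.Tendsto (fun n => P.sum (fun g a => a * n4v P (n4F f t (Function.support mu)) n (x * g)))
        Filter.atTop (nhds (P.sum (fun g a => a * u (x * g)))) := by
      unfold Finsupp.sum
      exact tendsto_finset_sum _ fun g _ => (hu (x * g)).const_mul (P g)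
    have h3 : (fun n => n4v P (n4F f t (Function.support mu)) (n + 1) x) =
        fun n => P.sum (fun g a => a * n4v P (n4F f t (Function.support mu)) n (x * g)) := by
      funext n
      exact n4v_first _ _ _ _
    rw [h3] at h1
    exact tendsto_nhds_unique h2 h1
  have hconst := hT u hbd hharm
  -- a large height
  obtain ⟨M, hM⟩ : ∃ M : ℕ, Real.exp (θ * ((R - (M : ℤ) : ℤ) : ℝ)) / (1 - ρ) ≤ 1 / 3 := by
    have hρ2 : 0 < (1 - ρ) / 3 := by linarith
    refine ⟨⌈(R : ℝ) - Real.log ((1 - ρ) / 3) / θ⌉₊, ?_⟩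
    have h1 := Nat.le_ceil ((R : ℝ) - Real.log ((1 - ρ) / 3) / θ)
    have h2 : θ * ((R - ((⌈(R : ℝ) - Real.log ((1 - ρ) / 3) / θ⌉₊ : ℕ) : ℤ) : ℤ) : ℝ) ≤ Real.log ((1 - ρ) / 3) := by
      push_cast
      have h3 : (R : ℝ) - (⌈(R : ℝ) - Real.log ((1 - ρ) / 3) / θ⌉₊ : ℝ) ≤ Real.log ((1 - ρ) / 3) / θ := by linarith
      calc θ * ((R : ℝ) - (⌈(R : ℝ) - Real.log ((1 - ρ) / 3) / θ⌉₊ : ℝ)) ≤ θ * (Real.log ((1 - ρ) / 3) / θ) :=
            mul_le_mul_of_nonneg_left h3 hθ.le
        _ = Real.log ((1 - ρ) / 3) := by field_simp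
    have h4 := Real.exp_le_exp.2 h2
    rw [Real.exp_log hρ2] at h4
    rw [div_le_iff₀ (by linarith)]
    linarith
  have htt : ht f (t ^ M) = (M : ℤ) := by
    unfold ht
    rw [map_pow, ht1, toAdd_pow, toAdd_ofAdd, nsmul_eq_mul, mul_one]
  have htk : ht f (k * t ^ M) = (M : ℤ) := by
    rw [n4_ht_mul, htt]
    have h1 : ht f k = 0 := by
      unfold ht
      rw [MonoidHom.mem_ker.1 hk, toAdd_one]
    rw [h1, zero_add]
  have h1 := hu2 (t ^ M)
  have h2 := hu2 (k * t ^ M)
  rw [htt] at h1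
  rw [htk] at h2
  have e1 : n4F f t (Function.support mu) (t ^ M) = 1 := if_pos (inUp_pow ht1 M)
  have e2 : n4F f t (Function.support mu) (k * t ^ M) = 0 := if_neg (not_inUp ht1 hk hk2 M)
  rw [e1] at h1
  rw [e2] at h2
  have h3 := (abs_le.1 (le_trans h1 hM)).2
  have h4 := (abs_le.1 (le_trans h2 hM)).1
  have h5 := hconst (t ^ M) (k * t ^ M)
  linarith

end Pool.Agent.H34.DC
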