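import Pool.Agent.H34.DC.N4

/-!
N5: drift implies a nontrivial boundary. `drift f mu > 0`: take `t` with `f t = ofAdd 1` (surjectivity), `A = kp f t '' support mu` finite in the kernel (`kp_mem_ker`). If every `k` of the kernel were in `up t A`
then `up t A = f.ker` (the other inclusion: the kernel is normal) and `finite_of_up` says that the kernel is finite, contradiction; so `nontrivial_of_not_mem`. `drift < 0`: replace `f` by
`f⁻¹` (the homomorphism `x ↦ (f x)⁻¹`, same kernel, surjective, `drift f⁻¹ mu = - drift f mu`).
-/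

namespace Pool.Agent.H34.DC

open Pool.Agent.H34.LS Pool.Agent.H34.RP

universe u

variable {G : Type u} [Group G]

private theorem N5_pos (f : G →* Multiplicative ℤ) (hf : Function.Surjective f)
    (hK : ∀ s : Set G, s.Finite → s ⊆ (f.ker : Set G) →
      ((Subgroup.closure s : Subgroup G) : Set G).Finite)
    (hinf : (f.ker : Set G).Infinite) {mu : G → ℝ} (h : IsFSProb mu) (hd : 0 < drift f mu) :
    ¬ TrivialBoundary mu := by
  obtain ⟨t, ht⟩ := hf (Multiplicative.ofAdd 1)
  have hA : (kp f t '' Function.support mu).Finite := h.finite.image _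
  have hAK : kp f t '' Function.support mu ⊆ (f.ker : Set G) := by
    rintro _ ⟨x, _, rfl⟩
    exact kp_mem_ker ht x
  have hex : ∃ k ∈ f.ker, k ∉ up t (kp f t '' Function.support mu) := by
    by_contra hne
    push Not at hne
    have hup : up t (kp f t '' Function.support mu) = f.ker := by
      apply le_antisymm
      · unfold up
        rw [Subgroup.closure_le]
        rintro _ ⟨j, k, hk, rfl⟩
        exact (inferInstance : f.ker.Normal).conj_mem _ (hAK hk) _
      · exact hne
    exact hinf (finite_of_up hK hA hAK hup)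
  obtain ⟨k, hk, hk2⟩ := hex
  exact nontrivial_of_not_mem h f ht hd hk hk2

theorem drift_nontrivial (f : G →* Multiplicative ℤ) (hf : Function.Surjective f)
    (hK : ∀ s : Set G, s.Finite → s ⊆ (f.ker : Set G) →
      ((Subgroup.closure s : Subgroup G) : Set G).Finite)
    (hinf : (f.ker : Set G).Infinite) {mu : G → ℝ} (h : IsFSProb mu) (hd : drift f mu ≠ 0) :
    ¬ TrivialBoundary mu := by
  rcases lt_or_gt_of_ne hd with hneg | hpos
  · have hker : (f⁻¹).ker = f.ker := by
      ext x
      rw [MonoidHom.mem_ker, MonoidHom.mem_ker, MonoidHom.inv_apply, inv_eq_one]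
    have hdr : drift f⁻¹ mu = -drift f mu := by
      unfold drift
      rw [← finsum_neg_distrib]
      refine finsum_congr fun g => ?_
      rw [MonoidHom.inv_apply, toAdd_inv]
      push_cast
      ring
    refine N5_pos f⁻¹ (fun y => ?_) ?_ ?_ h ?_
    · obtain ⟨x, hx⟩ := hf y⁻¹
      exact ⟨x, by rw [MonoidHom.inv_apply, hx, inv_inv]⟩
    · rw [hker]; exact hK
    · rw [hker]; exact hinf
    · rw [hdr]; linarith
  · exact N5_pos f hf hK hinf h hpos

end Pool.Agent.H34.DC
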