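import Pool.Agent.H34.DC.Defs
import Pool.Agent.H34.LS.E14

/-!
X1a: `drift_push_a`: the mean height of the image weight.
-/

namespace Pool.Agent.H34.DC

open Pool.Agent.H34.LS Pool.Agent.H34.RP

universe u v

private theorem x1a_drift {G : Type u} [Group G] (f : G →* Multiplicative ℤ) {mu : G → ℝ}
    (h : (Function.support mu).Finite) :
    drift f mu = (toPA mu h).coeff.sum
      (fun g a => a * ((Multiplicative.toAdd (f g) : ℤ) : ℝ)) := by
  have hs : (toPA mu h).coeff.support = h.toFinset := rfl
  unfold drift
  rw [Finsupp.sum, hs, finsum_eq_sum_of_support_subset (s := h.toFinset)]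
  · exact Finset.sum_congr rfl fun g _ => rfl
  · intro g hg
    rw [Set.Finite.coe_toFinset, Function.mem_support]
    intro h0
    rw [Function.mem_support, h0, zero_mul] at hg
    exact hg rfl

theorem drift_push_a {G : Type u} {G' : Type v} [Group G] [Group G'] (theta : G →* G')
    (f : G' →* Multiplicative ℤ) {mu : G → ℝ} (h : IsFSProb mu) :
    drift f (push theta mu) = drift (f.comp theta) mu := by
  have h1 : (mp theta (toPA mu h.finite)).coeff =
      Finsupp.mapDomain theta (toPA mu h.finite).coeff := rfl
  rw [x1a_drift f (push_fs theta h).finite, x1a_drift (f.comp theta) h.finite,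
    toPA_push theta h, h1, Finsupp.sum_mapDomain_index]
  · exact Finsupp.sum_congr fun g _ => rfl
  · intro b
    exact zero_mul _
  · intro b m₁ m₂
    exact add_mul _ _ _

end Pool.Agent.H34.DC
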