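import Pool.Agent.H34.DC.J6
import Pool.Agent.H34.DC.X1a
import Pool.Agent.H34.DC.N5
import Pool.Agent.H34.LS.A1
import Pool.Agent.H34.LS.LL1
import Pool.Agent.H34.LS.LL2

/-!
X1: the example. `drift_push`: `sum_h (sum_{theta g = h} mu g) f h = sum_g mu g f (theta g)` (finite sums; see the treatment of `push` in E14). `ll_iff`: for the lamplighter group: `centered_criterion` with `ll_window_finite`,
`ll_diverge`, `gen_closure`; `drift_nontrivial` with `hpos` surjective, kernel locally finite (proof inside `ll_locFinByZ` (LL1): the proof is for `hpos`; copy it or extract: for a finite set in the kernel the closure is finite) and infinite (the elements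
`⟨Finsupp.single i 1, 0⟩`). `example_lh`: `lifting` for `LL` (A1), `f = hpos.comp theta`, `push_fs`, `push_gen` (E14).
-/

namespace Pool.Agent.H34.DC

open Pool.Agent.H34.LS Pool.Agent.H34.RP

universe u v

theorem drift_push {G : Type u} {G' : Type v} [Group G] [Group G'] (theta : G →* G')
    (f : G' →* Multiplicative ℤ) {mu : G → ℝ} (h : IsFSProb mu) :
    drift f (push theta mu) = drift (f.comp theta) mu :=
  drift_push_a theta f h

private theorem X1_surj : Function.Surjective LL.hpos := by
  intro k
  exact ⟨⟨0, Multiplicative.toAdd k⟩, rfl⟩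

private theorem X1_ker (x : LL) : x ∈ LL.hpos.ker ↔ x.pos = 0 := by
  rw [MonoidHom.mem_ker]
  exact Iff.rfl

private theorem X1_locfin (s : Set LL) (hs : s.Finite) (hsk : s ⊆ (LL.hpos.ker : Set LL)) :
    ((Subgroup.closure s : Subgroup LL) : Set LL).Finite := by
  classical
  set A : Finset ℤ := hs.toFinset.biUnion (fun x => x.lamp.support) with hA
  set K : Subgroup LL :=
    { carrier := {x | x.pos = 0 ∧ x.lamp.support ⊆ A}
      mul_mem' := by
        rintro a b ⟨ha, ha'⟩ ⟨hb, hb'⟩
        refine ⟨?_, ?_⟩
        · rw [LL.mul_pos, ha, hb, add_zero]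
        · rw [LL.mul_lamp, ha]
          have : LL.sh 0 b.lamp = b.lamp := by
            ext j
            rw [LL.sh_apply, sub_zero]
          rw [this]
          exact Finsupp.support_add.trans (Finset.union_subset ha' hb')
      one_mem' := by
        refine ⟨rfl, ?_⟩
        rw [LL.one_lamp, Finsupp.support_zero]
        exact Finset.empty_subset _
      inv_mem' := by
        rintro a ⟨ha, ha'⟩
        refine ⟨?_, ?_⟩
        · rw [LL.inv_pos, ha, neg_zero]
        · rw [LL.inv_lamp, ha]
          have : LL.sh (-0) a.lamp = a.lamp := by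
            ext j
            rw [LL.sh_apply, neg_zero, sub_zero]
          rw [this]
          exact ha' } with hK
  have hle : Subgroup.closure s ≤ K := by
    rw [Subgroup.closure_le]
    intro x hx
    refine ⟨(X1_ker x).1 (hsk hx), ?_⟩
    intro i hi
    rw [hA, Finset.mem_biUnion]
    exact ⟨x, hs.mem_toFinset.2 hx, hi⟩
  refine Set.Finite.subset ?_ (show ((Subgroup.closure s : Subgroup LL) : Set LL) ⊆ (K : Set LL)
    from hle)
  refine Set.Finite.of_injOn (f := fun (x : LL) (a : A) => x.lamp a.1)
    (t := (Set.univ : Set (A → ZMod 2))) (fun _ _ => Set.mem_univ _) ?_ Set.finite_univ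
  rintro x ⟨hx, hx'⟩ y ⟨hy, hy'⟩ hxy
  apply LL.ext
  · ext j
    by_cases hj : j ∈ A
    · exact congrFun hxy ⟨j, hj⟩
    · have h1 : x.lamp j = 0 := by
        by_contra h
        exact hj (hx' (Finsupp.mem_support_iff.2 h))
      have h2 : y.lamp j = 0 := by
        by_contra h
        exact hj (hy' (Finsupp.mem_support_iff.2 h))
      rw [h1, h2]
  · rw [hx, hy]

private theorem X1_inf : (LL.hpos.ker : Set LL).Infinite := by
  refine Set.infinite_of_injective_forall_mem
    (f := fun i : ℤ => (⟨Finsupp.single i 1, 0⟩ : LL)) ?_ (fun i => (X1_ker _).2 rfl)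
  intro i j hij
  have h1 : (Finsupp.single i (1 : ZMod 2)) = Finsupp.single j 1 := congrArg LL.lamp hij
  exact Finsupp.single_left_injective one_ne_zero h1

theorem ll_iff {mu : LL → ℝ} (h : IsFSProb mu) (hg : Generating mu) :
    TrivialBoundary mu ↔ drift LL.hpos mu = 0 := by
  constructor
  · intro ht
    by_contra hd
    exact drift_nontrivial LL.hpos X1_surj X1_locfin X1_inf h hd ht
  · intro h0
    exact centered_criterion LL.hpos {LL.ga, LL.gt} LL.gen_closure LL.ll_window_finite
      LL.ll_diverge h hg h0

theorem example_lh : ∃ (G : Type) (_ : Group G) (f : G →* Multiplicative ℤ), Group.FG G ∧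
    LocFinByZ G ∧ LacunaryHyperbolic G ∧ Function.Surjective f ∧
    ∀ mu : G → ℝ, IsFSProb mu → Generating mu → (TrivialBoundary mu ↔ drift f mu = 0) := by
  obtain ⟨G, iG, theta, h1, h2, h3, h4, h5, -⟩ := lifting LL.ll_fg LL.ll_locFinByZ
  refine ⟨G, iG, LL.hpos.comp theta, h1, h2, h3, ?_, ?_⟩
  · rw [MonoidHom.coe_comp]
    exact X1_surj.comp h4
  · intro mu h hg
    rw [h5 mu h hg, ll_iff (push_fs theta h) (push_gen theta h4 h hg), drift_push theta LL.hpos h]

end Pool.Agent.H34.DC
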