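import Pool.Agent.H34.DC.Defs
import Pool.Agent.H34.LS.LL5
import Pool.Agent.H34.LS.LL6

/-!
X2: existence of measures. `exists_symm` (landed): a symmetric finitely supported generating `mu0`. If `drift f mu0 ≠ 0` take it (it is `0` in fact, but this is not needed). Otherwise, as `f` is onto and
`mu0` is generating, there is `g` with `mu0 g ≠ 0` and `f g ≠ 1`; `mu1 = (mu0 + δ_g) / 2` is a finitely supported probability, its support contains that of `mu0` (so it is generating, `Submonoid.closure_mono`), and
`drift f mu1 = (drift f mu0 + toAdd (f g)) / 2 ≠ 0`.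
-/

namespace Pool.Agent.H34.DC

open Pool.Agent.H34.LS

universe u

variable {G : Type u} [Group G]

private theorem x2_avg [DecidableEq G] {mu0 : G → ℝ} (hfin : (Function.support mu0).Finite) (g : G) (φ : G → ℝ) :
    ∑ᶠ x, ((mu0 x + if x = g then 1 else 0) / 2) * φ x = (∑ᶠ x, mu0 x * φ x + φ g) / 2 := by
  have e : ∀ x, ((mu0 x + if x = g then 1 else 0) / 2) * φ x = mu0 x * φ x / 2 + if x = g then φ x / 2 else 0 := by
    intro x
    split_ifs <;> ring
  have hg : g ∈ hfin.toFinset ∪ {g} := Finset.mem_union_right _ (Finset.mem_singleton_self g)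
  rw [finsum_eq_sum_of_support_subset (s := hfin.toFinset ∪ {g}) (fun x => ((mu0 x + if x = g then 1 else 0) / 2) * φ x),
    finsum_eq_sum_of_support_subset (s := hfin.toFinset ∪ {g}) (fun x => mu0 x * φ x),
    Finset.sum_congr rfl fun x _ => e x, Finset.sum_add_distrib, ← Finset.sum_div, Finset.sum_ite_eq', if_pos hg]
  · ring
  · intro x hx
    rw [Finset.coe_union, Set.Finite.coe_toFinset]
    exact Or.inl fun h => hx (by show mu0 x * φ x = 0; rw [h, zero_mul])
  · intro x hx
    rw [Finset.coe_union, Set.Finite.coe_toFinset, Finset.coe_singleton]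
    by_contra h
    rw [Set.mem_union, not_or] at h
    apply hx
    have h1 : mu0 x = 0 := by
      by_contra h2
      exact h.1 h2
    have h3 : x ≠ g := h.2
    show ((mu0 x + if x = g then 1 else 0) / 2) * φ x = 0
    rw [h1, if_neg h3]
    ring

theorem exists_drift (hfg : Group.FG G) (f : G →* Multiplicative ℤ) (hf : Function.Surjective f) :
    ∃ mu : G → ℝ, IsFSProb mu ∧ Generating mu ∧ drift f mu ≠ 0 := by
  classical
  obtain ⟨mu0, h0, hg0, _⟩ := exists_symm hfg
  by_cases hd : drift f mu0 = 0
  · obtain ⟨g, hg1, hg2⟩ : ∃ g, mu0 g ≠ 0 ∧ f g ≠ 1 := by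
      by_contra hcon
      push Not at hcon
      have h1 : Submonoid.closure (Function.support mu0) ≤ MonoidHom.mker f :=
        Submonoid.closure_le.2 fun g hg => MonoidHom.mem_mker.2 (hcon g hg)
      unfold Generating at hg0
      rw [hg0] at h1
      obtain ⟨g, hg⟩ := hf (Multiplicative.ofAdd 1)
      have h2 : f g = 1 := MonoidHom.mem_mker.1 (h1 (Submonoid.mem_top g))
      rw [hg] at h2
      exact absurd h2 (by decide)
    refine ⟨fun x => (mu0 x + if x = g then 1 else 0) / 2, ⟨fun x => ?_, ?_, ?_⟩, ?_, ?_⟩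
    · have := h0.nonneg x
      split_ifs <;> linarith
    · refine (h0.finite.union (Set.finite_singleton g)).subset fun x hx => ?_
      by_contra h
      rw [Set.mem_union, not_or] at h
      apply hx
      have h1 : mu0 x = 0 := by
        by_contra h2
        exact h.1 h2
      have h3 : x ≠ g := h.2
      show (mu0 x + if x = g then 1 else 0) / 2 = 0
      rw [h1, if_neg h3]
      norm_num
    · have h1 := x2_avg h0.finite g (fun _ => (1 : ℝ))
      simp only [mul_one] at h1
      rw [h1, h0.total]
      norm_num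
    · unfold Generating at hg0 ⊢
      rw [eq_top_iff, ← hg0]
      refine Submonoid.closure_mono fun x hx => ?_
      have h1 : 0 < mu0 x := lt_of_le_of_ne (h0.nonneg x) (Ne.symm hx)
      show (mu0 x + if x = g then 1 else 0) / 2 ≠ 0
      split_ifs <;> positivity
    · unfold drift at hd ⊢
      rw [x2_avg h0.finite g (fun x => ((Multiplicative.toAdd (f x) : ℤ) : ℝ)), hd, zero_add]
      have h1 : (Multiplicative.toAdd (f g) : ℤ) ≠ 0 := fun h => hg2 h
      have h2 : ((Multiplicative.toAdd (f g) : ℤ) : ℝ) ≠ 0 := by exact_mod_cast h1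
      exact div_ne_zero h2 (by norm_num)
  · exact ⟨mu0, h0, hg0, hd⟩

end Pool.Agent.H34.DC
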