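import Pool.Agent.H34.DC.X1
import Pool.Agent.H34.DC.X2
import Pool.Agent.H34.LS.LL6

/-!
X3: the example with existence of both kinds of measures; a symmetric measure has mean height `0`.
-/

namespace Pool.Agent.H34.DC

open Pool.Agent.H34.LS Pool.Agent.H34.RP

universe u

theorem drift_symm {G : Type u} [Group G] (f : G →* Multiplicative ℤ) {mu : G → ℝ}
    (hs : Symm mu) : drift f mu = 0 := by
  unfold drift
  have h1 : ∑ᶠ g, mu g * ((Multiplicative.toAdd (f g) : ℤ) : ℝ) =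
      ∑ᶠ g, - (mu g * ((Multiplicative.toAdd (f g) : ℤ) : ℝ)) := by
    rw [← finsum_comp_equiv (Equiv.inv G)]
    refine finsum_congr fun g => ?_
    rw [Equiv.inv_apply, hs g, map_inv, toAdd_inv]
    push_cast
    ring
  rw [finsum_neg_distrib] at h1
  linarith

theorem example_full : ∃ (G : Type) (_ : Group G) (f : G →* Multiplicative ℤ), Group.FG G ∧
    LocFinByZ G ∧ LacunaryHyperbolic G ∧ Function.Surjective f ∧
    (∃ mu : G → ℝ, IsFSProb mu ∧ Generating mu ∧ Symm mu ∧ drift f mu = 0) ∧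
    (∃ mu : G → ℝ, IsFSProb mu ∧ Generating mu ∧ drift f mu ≠ 0) ∧
    ∀ mu : G → ℝ, IsFSProb mu → Generating mu → (TrivialBoundary mu ↔ drift f mu = 0) := by
  obtain ⟨G, iG, f, hfg, hloc, hlac, hsurj, hiff⟩ := example_lh
  obtain ⟨mu, h1, h2, h3⟩ := exists_symm hfg
  exact ⟨G, iG, f, hfg, hloc, hlac, hsurj, ⟨mu, h1, h2, h3, drift_symm f h3⟩,
    exists_drift hfg f hsurj, hiff⟩

end Pool.Agent.H34.DC
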